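import Pool.Agent.Run7.h84.TT.Uniq
import Pool.Agent.R347.LW.Ex

/-! The exponential system over the fields of Lindemann-Weierstrass type. -/

set_option autoImplicit false

namespace Run7.h84.TT

open Pool.Agent.R347.LW

/-- the exponential of `α + t l` -/
noncomputable def EE (S : Set ℝ) (l : ℂ) (p : KS S × ℚ) : ℂ := Complex.exp ((p.1 : ℂ) + p.2 * l)

theorem expSys {S : Set ℝ} (hS : UltraLiouville S) (l : ℂ) : ExpSys (EE S l) where
  ne := fun v => Complex.exp_ne_zero _
  add := by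
    intro v w
    rw [EE, EE, EE, ← Complex.exp_add]
    congr 1
    simp only [Prod.fst_add, Prod.snd_add]
    push_cast
    ring
  ind := by
    intro n z hz
    have h1 : LinearIndependent ℚ z := by convert hz
    have h2 := algInd S hS n z h1
    have h3 : (fun i => EE S l (z i, 0)) = fun i => Complex.exp (z i : ℂ) := by
      funext i
      simp [EE]
    rw [h3]
    exact h2

instance algClosed (S : Set ℝ) : IsAlgClosed (KS S) :=
  IsAlgClosure.isAlgClosed (IntermediateField.adjoin ℚ (Complex.ofReal '' S))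

theorem alg_mem {S : Set ℝ} {x : ℂ} (h : IsAlgebraic (KS S) x) : ∃ y : KS S, (y : ℂ) = x := by
  have h1 : x ∈ algebraicClosure (KS S) ℂ := mem_algebraicClosure_iff.2 h
  rw [algebraicClosure.algebraicClosure_eq_bot, IntermediateField.mem_bot] at h1
  obtain ⟨y, hy⟩ := h1
  exact ⟨y, hy⟩

theorem mem_alg {S : Set ℝ} (y : KS S) : IsAlgebraic (KS S) (y : ℂ) :=
  isAlgebraic_algebraMap y

/-- a nonzero three-term relation -/
def Rel (S : Set ℝ) (l : ℂ) (c : Fin 3 → KS S) (p : Fin 3 → KS S × ℚ) : Prop :=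
  c ≠ 0 ∧ Function.Injective p ∧ ∑ i, (c i : ℂ) * EE S l (p i) = 0

/-- the case of a one-term relation -/
theorem exists_v {S : Set ℝ} (hS : UltraLiouville S) {l : ℂ}
    (hT : ¬ ∀ v : KS S × ℚ, v ≠ 0 → ¬ IsAlgebraic (KS S) (EE S l v)) :
    ∃ v : KS S × ℚ, v.2 ≠ 0 ∧ ∃ y : KS S, (y : ℂ) = EE S l v := by
  push Not at hT
  obtain ⟨v, hv0, hv⟩ := hT
  refine ⟨v, ?_, alg_mem hv⟩
  intro h2
  have hv1 : v.1 ≠ 0 := fun h1 => hv0 (Prod.ext h1 h2)
  have hli : LinearIndependent ℚ ![v.1] := linearIndependent_unique_iff.2 hv1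
  have h3 := (expSys hS l).ind 1 _ hli
  have h4 := h3.transcendental 0
  apply h4
  have : ((![v.1] : Fin 1 → KS S) 0, (0 : ℚ)) = v := by
    rw [← h2]
    rfl
  rw [this]
  exact hv

theorem alg_smul {K L : Type*} [Field K] [CharZero K] [Field L] [Algebra K L] {E : K × ℚ → L}
    (hE : ExpSys E) {v : K × ℚ} (h : IsAlgebraic K (E v)) (q : ℚ) : IsAlgebraic K (E (q • v)) := by
  refine IsAlgebraic.of_pow q.den_pos ?_
  rw [← hE.nsmul, den_smul, hE.zsmul]
  obtain ⟨m, hm | hm⟩ := q.num.eq_nat_or_neg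
  · rw [hm, zpow_natCast]
    exact h.pow m
  · rw [hm, zpow_neg, zpow_natCast]
    exact (h.pow m).inv

/-- two pairs differ by a rational multiple of `v` -/
def Diff {S : Set ℝ} (v p q : KS S × ℚ) : Prop :=
  ∃ r : ℚ, p.1 - q.1 = r * v.1 ∧ p.2 - q.2 = r * v.2

theorem Diff.eq {S : Set ℝ} {v p q : KS S × ℚ} (h : Diff v p q) : ∃ r : ℚ, p = q + r • v := by
  obtain ⟨r, h1, h2⟩ := h
  refine ⟨r, Prod.ext ?_ ?_⟩
  · rw [Prod.fst_add, Prod.smul_fst, Rat.smul_def, ← h1]
    ring
  · rw [Prod.snd_add, Prod.smul_snd, smul_eq_mul, ← h2]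
    ring

theorem Diff.of_eq {S : Set ℝ} {v p q : KS S × ℚ} {r : ℚ} (h : p = q + r • v) : Diff v p q := by
  refine ⟨r, ?_, ?_⟩
  · rw [h, Prod.fst_add, Prod.smul_fst, Rat.smul_def]
    ring
  · rw [h, Prod.snd_add, Prod.smul_snd, smul_eq_mul]
    ring

theorem caseTwo {S : Set ℝ} (hS : UltraLiouville S) {l : ℂ} {v : KS S × ℚ} (hv2 : v.2 ≠ 0)
    {y : KS S} (hy : (y : ℂ) = EE S l v) {p : Fin 3 → KS S × ℚ} (hp : Function.Injective p) :
    (∃ c, Rel S l c p) ↔ ∃ i j, i ≠ j ∧ Diff v (p i) (p j) := by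
  classical
  have hE := expSys hS l
  have hva : IsAlgebraic (KS S) (EE S l v) := hy ▸ mem_alg y
  constructor
  · rintro ⟨c, hc0, -, hc⟩
    by_contra hcon
    have hcon' : ∀ i j, i ≠ j → ¬ Diff v (p i) (p j) := fun i j hij hd => hcon ⟨i, j, hij, hd⟩
    choose ε hε using fun i => alg_mem (alg_smul hE hva ((p i).2 / v.2))
    have hpi : ∀ i, p i = (((p i - ((p i).2 / v.2) • v).1, 0) : KS S × ℚ) + ((p i).2 / v.2) • v := by
      intro i
      apply Prod.ext
      · simp
      · simp [hv2]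
    have hEi : ∀ i, EE S l (p i) = Complex.exp (((p i - ((p i).2 / v.2) • v).1 : KS S) : ℂ) * ε i := by
      intro i
      rw [hε i]
      conv_lhs => rw [hpi i, hE.add]
      congr 1
      simp [EE]
    have hinj : Function.Injective fun i => (((p i - ((p i).2 / v.2) • v).1 : KS S) : ℂ) := by
      intro i j hij
      have h1 : (p i - ((p i).2 / v.2) • v).1 = (p j - ((p j).2 / v.2) • v).1 := Subtype.ext hij
      by_contra hne
      apply hcon' i j hne
      apply Diff.of_eq (r := (p i).2 / v.2 - (p j).2 / v.2)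
      have hi := hpi i
      rw [h1] at hi
      calc p i = (((p j - ((p j).2 / v.2) • v).1, 0) : KS S × ℚ) + ((p i).2 / v.2) • v := hi
        _ = ((((p j - ((p j).2 / v.2) • v).1, 0) : KS S × ℚ) + ((p j).2 / v.2) • v) +
            ((p i).2 / v.2 - (p j).2 / v.2) • v := by module
        _ = p j + ((p i).2 / v.2 - (p j).2 / v.2) • v := by rw [← hpi j]
    have h2 := lw_finset S hS (Finset.univ : Finset (Fin 3)) _ (fun i => ((c i * ε i : KS S) : ℂ))
      (fun i => (p i - ((p i).2 / v.2) • v).1.2) (fun i => (c i * ε i : KS S).2) hinj (by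
        rw [← hc]
        refine Finset.sum_congr rfl fun i _ => ?_
        rw [hEi i]
        push_cast
        ring)
    apply hc0
    funext i
    have h3 := h2 i (Finset.mem_univ _)
    have h4 : (ε i : ℂ) ≠ 0 := by rw [hε i]; exact hE.ne _
    simp only [MulMemClass.coe_mul] at h3
    exact Subtype.ext ((mul_eq_zero.1 h3).resolve_right h4)
  · rintro ⟨i, j, hij, hd⟩
    obtain ⟨r, hr⟩ := hd.eq
    obtain ⟨z, hz⟩ := alg_mem (alg_smul hE hva r)
    refine ⟨fun k => if k = i then 1 else if k = j then -z else 0, ?_, hp, ?_⟩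
    · intro h0
      have := congrFun h0 i
      simp at this
    · have h1 : ∀ k, (((if k = i then 1 else if k = j then -z else 0 : KS S)) : ℂ) * EE S l (p k) =
          (if k = i then EE S l (p i) else 0) + (if k = j then -z * EE S l (p j) else 0) := by
        intro k
        by_cases h1 : k = i
        · subst h1
          simp [hij]
        · by_cases h2 : k = j
          · subst h2
            simp [h1]
          · simp [h1, h2]
      rw [Finset.sum_congr rfl (fun k _ => h1 k), Finset.sum_add_distrib, Finset.sum_ite_eq' ,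
        Finset.sum_ite_eq', if_pos (Finset.mem_univ _), if_pos (Finset.mem_univ _)]
      have h2 : EE S l (p i) = EE S l (p j) * z := by rw [hz, hr, hE.add]
      rw [h2]
      ring

theorem caseThree {S : Set ℝ} (hS : UltraLiouville S) {l : ℂ}
    (hT : ∀ v : KS S × ℚ, v ≠ 0 → ¬ IsAlgebraic (KS S) (EE S l v)) {c : Fin 3 → KS S}
    {p : Fin 3 → KS S × ℚ} (h : Rel S l c p) (c' : Fin 3 → KS S) (p' : Fin 3 → KS S × ℚ) :
    Rel S l c' p' ↔ ∃ (σ : Equiv.Perm (Fin 3)) (s : KS S × ℚ) (μ : KS S), μ ≠ 0 ∧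
      ∀ i, p' (σ i) = s + p i ∧ c' (σ i) = μ * c i := by
  have hE := expSys hS l
  obtain ⟨hc0, hp, hs⟩ := h
  constructor
  · rintro ⟨hc0', hp', hs'⟩
    exact uniq hE hT hp (all_ne hE hT hp hc0 hs) hs hp' (all_ne hE hT hp' hc0' hs') hs'
  · rintro ⟨σ, s, μ, hμ, hσ⟩
    refine ⟨?_, ?_, ?_⟩
    · intro h0
      apply hc0
      funext i
      have h1 := (hσ i).2
      rw [h0] at h1
      exact (mul_eq_zero.1 h1.symm).resolve_left hμ
    · intro i j hij
      have h1 := (hσ (σ.symm i)).1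
      have h2 := (hσ (σ.symm j)).1
      rw [Equiv.apply_symm_apply] at h1 h2
      rw [h1, h2] at hij
      exact σ.symm.injective (hp (add_left_cancel hij))
    · rw [← Equiv.sum_comp σ]
      have h1 : ∀ i, (c' (σ i) : ℂ) * EE S l (p' (σ i)) =
          (μ * EE S l s) * ((c i : ℂ) * EE S l (p i)) := by
        intro i
        rw [(hσ i).1, (hσ i).2, hE.add]
        push_cast
        ring
      rw [Finset.sum_congr rfl (fun i _ => h1 i), ← Finset.mul_sum, hs, mul_zero]

end Run7.h84.TT
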