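import Pool.Agent.Run7.h84.TT.Ker1

/-! All relations are multiples of a three-term relation. -/

set_option autoImplicit false

namespace Run7.h84.TT

open AlgebraicIndependent

variable {K L : Type*} [Field K] [CharZero K] [Field L] [Algebra K L]

/-- the algebraic closure of the algebra generated by the exponential of `κ` -/
noncomputable abbrev Om (K : Type*) {L : Type*} [Field K] [Field L] [Algebra K L] (x : L) :
    Subalgebra (Algebra.adjoin K {x}) L :=
  Subalgebra.algebraicClosure (Algebra.adjoin K {x}) L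

theorem ExpSys.prod {E : K × ℚ → L} (h : ExpSys E) {ι : Type*} (s : Finset ι) (v : ι → K × ℚ) :
    E (∑ i ∈ s, v i) = ∏ i ∈ s, E (v i) := by
  classical
  induction s using Finset.induction_on with
  | empty => simp [h.zero]
  | insert a s ha ih => rw [Finset.sum_insert ha, Finset.prod_insert ha, h.add, ih]

theorem indOm {E : K × ℚ → L} (hE : ExpSys E) {κ : K} {n : ℕ} (z : Fin n → K)
    (hz : LinearIndependent ℚ (Fin.cons κ z : Fin (n + 1) → K)) :
    AlgebraicIndependent (Om K (E (κ, 0))) (fun i => E (z i, 0)) := by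
  have h1 := hE.ind (n + 1) _ hz
  have h2 := h1.adjoin_of_disjoint (s := {0}) (t := Set.range Fin.succ) (by
    rw [Set.disjoint_singleton_left]
    rintro ⟨j, hj⟩
    exact Fin.succ_ne_zero j hj)
  have h3 : (fun i => E ((Fin.cons κ z : Fin (n + 1) → K) i, 0)) '' {0} = {E (κ, 0)} := by
    rw [Set.image_singleton]
    rfl
  rw [h3] at h2
  have h4 := h2.comp (fun i : Fin n => (⟨Fin.succ i, Set.mem_range_self i⟩ : Set.range Fin.succ))
    (fun i j hij => Fin.succ_injective _ (congrArg Subtype.val hij))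
  exact h4.subalgebraAlgebraicClosure

/-- exponentials of distinct elements of a complement of `ℚ κ` are linearly independent -/
theorem linOm {E : K × ℚ → L} (hE : ExpSys E) {κ : K} (hκ : κ ≠ 0) (W : Submodule ℚ K)
    (hW : Disjoint (Submodule.span ℚ {κ}) W) (T : Finset K) (hTW : ∀ t ∈ T, t ∈ W) (g : K → L)
    (hg : ∀ t ∈ T, g t ∈ Om K (E (κ, 0))) (h0 : ∑ t ∈ T, g t * E (t, 0) = 0) :
    ∀ t ∈ T, g t = 0 := by
  classical
  set W1 : Submodule ℚ K := Submodule.span ℚ (T : Set K) with hW1
  have hW1W : W1 ≤ W := Submodule.span_le.2 hTW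
  have : Module.Finite ℚ W1 := Module.Finite.span_of_finite ℚ T.finite_toSet
  set β := Module.finBasis ℚ W1 with hβ
  set n := Module.finrank ℚ W1 with hn
  have hmem : ∀ t ∈ T, t ∈ W1 := fun t ht => Submodule.subset_span ht
  obtain ⟨N, hN, A, P, hP⟩ := nat_coords T
    (fun t (k : Fin n) => if h : t ∈ W1 then β.repr ⟨t, h⟩ k else 0)
  have hN' : (N : ℚ) ≠ 0 := by exact_mod_cast hN
  set z : Fin n → K := fun k => (N : ℚ)⁻¹ • (β k : K) with hz
  set sh : K := ∑ k, A • z k with hsh
  have hsum : ∀ t ∈ T, ∑ k, P t k • z k = t + sh := by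
    intro t ht
    have h1 : t = ∑ k, β.repr ⟨t, hmem t ht⟩ k • (β k : K) := by
      have := β.sum_repr ⟨t, hmem t ht⟩
      have h2 : ((∑ i, β.repr ⟨t, hmem t ht⟩ i • β i : W1) : K) = t := congrArg Subtype.val this
      rw [Submodule.coe_sum] at h2
      simp only [Submodule.coe_smul] at h2
      exact h2.symm
    have h2 : ∀ k, P t k • z k = β.repr ⟨t, hmem t ht⟩ k • (β k : K) + A • z k := by
      intro k
      rw [← Nat.cast_smul_eq_nsmul ℚ, ← Nat.cast_smul_eq_nsmul ℚ A, hP t ht k, dif_pos (hmem t ht),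
        add_smul, hz]
      simp only [smul_smul]
      congr 2
      field_simp
    rw [Finset.sum_congr rfl (fun k _ => h2 k), Finset.sum_add_distrib, ← h1]
  have hβli : LinearIndependent ℚ (fun k => (β k : K)) :=
    β.linearIndependent.map' W1.subtype (Submodule.ker_subtype _)
  have hzli : LinearIndependent ℚ z := by
    rw [Fintype.linearIndependent_iff] at hβli ⊢
    intro c hc k
    have h1 := hβli (fun k => c k * (N : ℚ)⁻¹) (by
      rw [← hc]
      refine Finset.sum_congr rfl fun k _ => ?_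
      rw [mul_smul])
    exact (mul_eq_zero.1 (h1 k)).resolve_right (inv_ne_zero hN')
  have hcons : LinearIndependent ℚ (Fin.cons κ z : Fin (n + 1) → K) := by
    rw [linearIndependent_finCons]
    refine ⟨hzli, fun hmem' => hκ ?_⟩
    have h1 : Submodule.span ℚ (Set.range z) ≤ W := by
      rw [Submodule.span_le]
      rintro _ ⟨k, rfl⟩
      exact W.smul_mem _ (hW1W (β k).2)
    have h2 := Submodule.disjoint_def.1 hW κ (Submodule.mem_span_singleton_self κ) (h1 hmem')
    exact h2
  have hAI := indOm hE z hcons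
  -- the polynomial
  set q : MvPolynomial (Fin n) (Om K (E (κ, 0))) := ∑ t ∈ T.attach,
    MvPolynomial.monomial (Finsupp.equivFunOnFinite.symm (P t.1)) (⟨g t.1, hg t.1 t.2⟩ : Om K (E (κ, 0)))
    with hq
  have hq0 : MvPolynomial.aeval (fun i => E (z i, 0)) q = 0 := by
    rw [hq, map_sum]
    have h1 : ∀ t : T, MvPolynomial.aeval (fun i => E (z i, 0))
        (MvPolynomial.monomial (Finsupp.equivFunOnFinite.symm (P t.1))
          (⟨g t.1, hg t.1 t.2⟩ : Om K (E (κ, 0)))) = g t.1 * E (t.1, 0) * E (sh, 0) := by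
      intro t
      rw [MvPolynomial.aeval_monomial, mul_assoc, ← hE.add]
      have e1 : ((t.1, 0) : K × ℚ) + (sh, 0) = ∑ k, P t.1 k • ((z k, 0) : K × ℚ) := by
        apply Prod.ext
        · rw [Prod.fst_sum]
          simp only [Prod.smul_fst, Prod.fst_add]
          exact (hsum t.1 t.2).symm
        · rw [Prod.snd_sum]
          simp
      rw [e1, hE.prod, Finsupp.prod_fintype _ _ (fun i => pow_zero _)]
      simp only [hE.nsmul]
      rfl
    rw [Finset.sum_congr rfl (fun t _ => h1 t), ← Finset.sum_mul,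
      Finset.sum_attach T (fun t => g t * E (t, 0)), h0, zero_mul]
  have hq1 : q = 0 := by
    have h1 := (injective_iff_map_eq_zero _).1 hAI q hq0
    exact h1
  intro t ht
  have h2 := congrArg (MvPolynomial.coeff (Finsupp.equivFunOnFinite.symm (P t))) hq1
  rw [hq, MvPolynomial.coeff_sum, MvPolynomial.coeff_zero, Finset.sum_eq_single ⟨t, ht⟩] at h2
  · rw [MvPolynomial.coeff_monomial, if_pos rfl] at h2
    exact congrArg Subtype.val h2
  · intro t' _ hne
    rw [MvPolynomial.coeff_monomial, if_neg]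
    intro he
    apply hne
    have h3 : P t'.1 = P t := Finsupp.equivFunOnFinite.symm.injective he
    apply Subtype.ext
    have h4 := hsum t'.1 t'.2
    rw [h3, hsum t ht] at h4
    exact (add_right_cancel h4).symm
  · intro hh
    exact absurd (Finset.mem_attach _ _) hh

/-- all relations are multiples of a three-term relation -/
theorem dvd_all [IsAlgClosed K] {E : K × ℚ → L} (hE : ExpSys E)
    (hT : ∀ v, v ≠ 0 → ¬ IsAlgebraic K (E v))
    {v : Fin 3 → K × ℚ} (hv : Function.Injective v) {c : Fin 3 → K} (hc : ∀ i, c i ≠ 0)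
    (hcv : ∑ i, algebraMap K L (c i) * E (v i) = 0) (G : AddMonoidAlgebra K (K × ℚ))
    (hG : ev hE G = 0) : (∑ i, AddMonoidAlgebra.single (v i) (c i)) ∣ G := by
  classical
  set a := v 1 - v 0 with ha
  set b := v 2 - v 0 with hb
  have hab := noncollinear hE hT hv hc hcv
  have rel : algebraMap K L (c 0) + algebraMap K L (c 1) * E a + algebraMap K L (c 2) * E b = 0 := by
    rw [Fin.sum_univ_three] at hcv
    rw [ha, hb, hE.sub, hE.sub]
    have := hE.ne (v 0)
    field_simp
    linear_combination hcv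
  obtain ⟨p, κ, h1, h2, h3, h4, -, -, h7⟩ :=
    plane hE (self_mem hE a) (third_mem hE a b (hc 2) rel) hab
  have hpl := planes hE (not_mem_empty hE hT) (self_mem hE a) (third_mem hE a b (hc 2) rel) hab
    (self_mem hE a) (third_mem hE a b (hc 2) rel) hab
  have hκv : ((κ, 0) : K × ℚ) ≠ 0 := fun h => h3 (congrArg Prod.fst h)
  have hex : GG hE {E a} = GG hE {E (κ, 0)} := exchange hE h4 (not_mem_empty hE hT _ hκv)
  obtain ⟨W, hW⟩ := Submodule.exists_isCompl (Submodule.span ℚ {κ})
  -- decomposition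
  have hdec : ∀ u : K × ℚ, ∃ t : K, t ∈ W ∧ u - (t, 0) ∈ GG hE {E a} := by
    intro u
    have h8 : (u.1 - u.2 • p.1) ∈ Submodule.span ℚ {κ} ⊔ W := by
      rw [hW.sup_eq_top]
      exact Submodule.mem_top
    obtain ⟨y, hy, t, ht, hyt⟩ := Submodule.mem_sup.1 h8
    obtain ⟨r, rfl⟩ := Submodule.mem_span_singleton.1 hy
    refine ⟨t, ht, ?_⟩
    have h9 : u - (t, 0) = u.2 • p + r • ((κ, 0) : K × ℚ) := by
      apply Prod.ext
      · simp only [Prod.fst_sub, Prod.fst_add, Prod.smul_fst]
        linear_combination -hyt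
      · simp [h2]
    rw [h9]
    exact (GG hE {E a}).add_mem ((GG hE {E a}).smul_mem _ h1) ((GG hE {E a}).smul_mem _ h4)
  choose om hom hpi using hdec
  set T := G.coeff.support.image om with hT'
  set pi : K × ℚ → K × ℚ := fun u => u - (om u, 0) with hpi'
  have hGs : G = ∑ t ∈ T, AddMonoidAlgebra.single ((t, 0) : K × ℚ) 1 *
      ∑ u ∈ G.coeff.support with om u = t, AddMonoidAlgebra.single (pi u) (G.coeff u) := by
    have e1 : ∀ t ∈ T, AddMonoidAlgebra.single ((t, 0) : K × ℚ) 1 *
        ∑ u ∈ G.coeff.support with om u = t, AddMonoidAlgebra.single (pi u) (G.coeff u) =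
        ∑ u ∈ G.coeff.support with om u = t, AddMonoidAlgebra.single u (G.coeff u) := by
      intro t _
      rw [Finset.mul_sum]
      refine Finset.sum_congr rfl fun u hu => ?_
      rw [AddMonoidAlgebra.single_mul_single, one_mul]
      congr 1
      rw [hpi', ← (Finset.mem_filter.1 hu).2]
      simp
    rw [Finset.sum_congr rfl e1, Finset.sum_fiberwise_of_maps_to
      (fun u hu => Finset.mem_image_of_mem om hu)]
    exact (AddMonoidAlgebra.sum_coeff_single G).symm
  have hmemOm : ∀ t ∈ T, (∑ u ∈ G.coeff.support with om u = t,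
      algebraMap K L (G.coeff u) * E (pi u)) ∈ Om K (E (κ, 0)) := by
    intro t _
    refine Subalgebra.sum_mem _ fun u _ => ?_
    have e1 : pi u ∈ GG hE {E (κ, 0)} := by rw [← hex]; exact hpi u
    have e2 : IsAlgebraic (Algebra.adjoin K {E (κ, 0)}) (E (pi u)) := mem_cl.1 ((mem_GG hE).1 e1)
    have e3 : IsAlgebraic (Algebra.adjoin K {E (κ, 0)}) (algebraMap K L (G.coeff u)) :=
      isAlgebraic_algebraMap (algebraMap K (Algebra.adjoin K {E (κ, 0)}) (G.coeff u))
    exact e3.mul e2
  have hzero := linOm hE h3 W hW.disjoint T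
    (fun t ht => by
      obtain ⟨u, -, rfl⟩ := Finset.mem_image.1 ht
      exact hom u)
    (fun t => ∑ u ∈ G.coeff.support with om u = t, algebraMap K L (G.coeff u) * E (pi u)) hmemOm (by
      rw [← hG]
      conv_rhs => rw [hGs, map_sum]
      refine Finset.sum_congr rfl fun t _ => ?_
      rw [map_mul, map_sum, ev_single, map_one, one_mul, mul_comm]
      simp only [ev_single])
  rw [hGs]
  refine Finset.dvd_sum fun t ht => Dvd.dvd.mul_left ?_ _
  exact dvd_plane hE hT hv hc hcv _ pi (fun u => G.coeff u)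
    (fun u _ => hpl _ (hpi u)) (hzero t ht)

end Run7.h84.TT
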