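import Pool.Agent.Run7.h84.TT.Cx
import Pool.Agent.Run7.h84.TT.Ker2

/-! The ideal of all relations. -/

set_option autoImplicit false

namespace Run7.h84.TT

open Pool.Agent.R347.LW

theorem caseTwoIdeal {S : Set ℝ} (hS : UltraLiouville S) {l : ℂ} {v : KS S × ℚ} (hv2 : v.2 ≠ 0)
    (y : ℚ → KS S) (hy : ∀ r, (y r : ℂ) = EE S l (r • v)) (G : AddMonoidAlgebra (KS S) (KS S × ℚ)) :
    ev (expSys hS l) G = 0 ↔ G ∈ Ideal.span (Set.range fun r : ℚ =>
      (AddMonoidAlgebra.single (r • v) 1 - AddMonoidAlgebra.single 0 (y r) :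
        AddMonoidAlgebra (KS S) (KS S × ℚ))) := by
  classical
  set hE := expSys hS l with hEdef
  set J := Ideal.span (Set.range fun r : ℚ =>
      (AddMonoidAlgebra.single (r • v) 1 - AddMonoidAlgebra.single 0 (y r) :
        AddMonoidAlgebra (KS S) (KS S × ℚ))) with hJ
  have hker : ∀ F ∈ J, ev hE F = 0 := by
    intro F hF
    have h1 : J ≤ RingHom.ker (ev hE).toRingHom := by
      rw [hJ, Ideal.span_le]
      rintro _ ⟨r, rfl⟩
      rw [SetLike.mem_coe, RingHom.mem_ker]
      change ev hE _ = 0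
      rw [map_sub, ev_single, ev_single, map_one, one_mul, hE.zero, mul_one, sub_eq_zero, ← hy]
      rfl
    exact (RingHom.mem_ker).1 (h1 hF)
  refine ⟨fun h0 => ?_, hker G⟩
  set τ : KS S × ℚ → ℚ := fun u => u.2 / v.2 with hτ
  set β : KS S × ℚ → KS S := fun u => (u - τ u • v).1 with hβ
  have hdec : ∀ u, u = ((β u, 0) : KS S × ℚ) + τ u • v := by
    intro u
    apply Prod.ext
    · simp [hβ]
    · simp [hτ, hv2]
  set G0 : AddMonoidAlgebra (KS S) (KS S × ℚ) :=
    ∑ u ∈ G.coeff.support, AddMonoidAlgebra.single ((β u, 0) : KS S × ℚ) (G.coeff u * y (τ u)) with hG0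
  have hdiff : G - G0 ∈ J := by
    have h1 : G = ∑ u ∈ G.coeff.support, AddMonoidAlgebra.single u (G.coeff u) :=
      (AddMonoidAlgebra.sum_coeff_single G).symm
    have h2 : G - G0 = ∑ u ∈ G.coeff.support, AddMonoidAlgebra.single ((β u, 0) : KS S × ℚ) (G.coeff u) *
        (AddMonoidAlgebra.single (τ u • v) 1 - AddMonoidAlgebra.single 0 (y (τ u))) := by
      conv_lhs => rw [h1]
      rw [hG0, ← Finset.sum_sub_distrib]
      refine Finset.sum_congr rfl fun u _ => ?_
      rw [mul_sub, AddMonoidAlgebra.single_mul_single, AddMonoidAlgebra.single_mul_single, ← hdec u,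
        mul_one, add_zero]
    rw [h2]
    exact J.sum_mem fun u _ => J.mul_mem_left _ (Ideal.subset_span ⟨τ u, rfl⟩)
  have hev0 : ev hE G0 = 0 := by
    have h1 := hker _ hdiff
    rw [map_sub, h0, zero_sub, neg_eq_zero] at h1
    exact h1
  have hG0' : G0 = ∑ b ∈ G.coeff.support.image β, AddMonoidAlgebra.single ((b, 0) : KS S × ℚ)
      (∑ u ∈ G.coeff.support with β u = b, G.coeff u * y (τ u)) := by
    rw [hG0, ← Finset.sum_fiberwise_of_maps_to (fun u hu => Finset.mem_image_of_mem β hu)]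
    refine Finset.sum_congr rfl fun b _ => ?_
    have h1 : AddMonoidAlgebra.single ((b, 0) : KS S × ℚ)
        (∑ u ∈ G.coeff.support with β u = b, G.coeff u * y (τ u)) =
        ∑ u ∈ G.coeff.support with β u = b, AddMonoidAlgebra.single ((b, 0) : KS S × ℚ)
          (G.coeff u * y (τ u)) :=
      map_sum (AddMonoidAlgebra.singleAddHom ((b, 0) : KS S × ℚ)) _ _
    rw [h1]
    refine Finset.sum_congr rfl fun u hu => ?_
    rw [(Finset.mem_filter.1 hu).2]
  have hz : ∀ b ∈ G.coeff.support.image β,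
      ((∑ u ∈ G.coeff.support with β u = b, G.coeff u * y (τ u) : KS S) : ℂ) = 0 := by
    refine lw_finset S hS _ (fun b : KS S => (b : ℂ)) _ (fun b => b.2) (fun b =>
      (∑ u ∈ G.coeff.support with β u = b, G.coeff u * y (τ u) : KS S).2) Subtype.val_injective ?_
    rw [← hev0, hG0', map_sum]
    refine Finset.sum_congr rfl fun b _ => ?_
    rw [ev_single]
    simp [EE]
  have hG00 : G0 = 0 := by
    rw [hG0']
    refine Finset.sum_eq_zero fun b hb => ?_
    have h1 : (∑ u ∈ G.coeff.support with β u = b, G.coeff u * y (τ u) : KS S) = 0 :=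
      Subtype.ext (hz b hb)
    rw [h1, AddMonoidAlgebra.single_zero]
  rw [hG00, sub_zero] at hdiff
  exact hdiff

theorem caseThreeIdeal {S : Set ℝ} (hS : UltraLiouville S) {l : ℂ}
    (hT : ∀ v : KS S × ℚ, v ≠ 0 → ¬ IsAlgebraic (KS S) (EE S l v)) {c : Fin 3 → KS S}
    {p : Fin 3 → KS S × ℚ} (h : Rel S l c p) (G : AddMonoidAlgebra (KS S) (KS S × ℚ)) :
    ev (expSys hS l) G = 0 ↔ (∑ i, AddMonoidAlgebra.single (p i) (c i)) ∣ G := by
  have hE := expSys hS l
  obtain ⟨hc0, hp, hs⟩ := h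
  constructor
  · intro hG
    exact dvd_all hE hT hp (all_ne hE hT hp hc0 hs) hs G hG
  · rintro ⟨H, rfl⟩
    rw [map_mul, map_sum]
    simp only [ev_single]
    have : ∑ i, algebraMap (KS S) ℂ (c i) * EE S l (p i) = 0 := hs
    rw [this, zero_mul]

theorem ev_eq {S : Set ℝ} (hS : UltraLiouville S) (l : ℂ) (G : AddMonoidAlgebra (KS S) (KS S × ℚ)) :
    ev (expSys hS l) G = ∑ p ∈ G.coeff.support, (G.coeff p : ℂ) * EE S l p := by
  conv_lhs => rw [← AddMonoidAlgebra.sum_coeff_single G]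
  rw [Finsupp.sum, map_sum]
  refine Finset.sum_congr rfl fun p _ => ?_
  rw [ev_single]
  rfl

end Run7.h84.TT
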