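import Pool.Agent.Run7.h84.TT.Ker2

/-! Short relations in exponential systems of finite defect. -/

set_option autoImplicit false

namespace Run7.h84.TT

open AlgebraicIndependent Module

variable {K L V : Type*} [Field K] [CharZero K] [Field L] [Algebra K L] [AddCommGroup V] [Module ℚ V]

/-- an exponential map on a rational vector space `V` which satisfies the theorem of Lindemann and
Weierstrass on the subspace `U` -/
structure ExpV (K : Type*) {L V : Type*} [Field K] [Field L] [Algebra K L] [AddCommGroup V]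
    [Module ℚ V] (E : V → L) (U : Submodule ℚ V) : Prop where
  ne : ∀ v, E v ≠ 0
  add : ∀ v w, E (v + w) = E v * E w
  ind : ∀ (n : ℕ) (z : Fin n → V), (∀ i, z i ∈ U) → LinearIndependent ℚ z →
    AlgebraicIndependent K (fun i => E (z i))

namespace ExpV

variable {E : V → L} {U : Submodule ℚ V} (h : ExpV K E U)

include h

theorem zero : E 0 = 1 := by
  have h1 := h.add 0 0
  rw [add_zero] at h1
  exact (mul_eq_left₀ (h.ne 0)).1 h1.symm

theorem neg (v : V) : E (-v) = (E v)⁻¹ := by
  have h1 := h.add v (-v)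
  rw [add_neg_cancel, h.zero] at h1
  exact (inv_eq_of_mul_eq_one_right h1.symm).symm

theorem nsmul (v : V) (n : ℕ) : E (n • v) = E v ^ n := by
  induction n with
  | zero => rw [zero_smul, h.zero, pow_zero]
  | succ n ih => rw [succ_nsmul, h.add, ih, pow_succ]

theorem zsmul (v : V) (n : ℤ) : E (n • v) = E v ^ n := by
  obtain ⟨m, rfl | rfl⟩ := n.eq_nat_or_neg
  · rw [natCast_zsmul, h.nsmul, zpow_natCast]
  · rw [neg_smul, natCast_zsmul, h.neg, h.nsmul, zpow_neg, zpow_natCast]

theorem prod {ι : Type*} (s : Finset ι) (v : ι → V) : E (∑ i ∈ s, v i) = ∏ i ∈ s, E (v i) := by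
  classical
  induction s using Finset.induction_on with
  | empty => simp [h.zero]
  | insert a s ha ih => rw [Finset.sum_insert ha, Finset.prod_insert ha, h.add, ih]

end ExpV

theorem den_smulV (r : ℚ) (v : V) : r.den • (r • v) = r.num • v := by
  have h1 : ((r.den : ℚ) * r) = (r.num : ℚ) := Rat.den_mul_eq_num r
  rw [← Nat.cast_smul_eq_nsmul ℚ, smul_smul, h1, Int.cast_smul_eq_zsmul]

/-- the vectors whose exponential is algebraic over the algebra generated by `T` -/
def GV {E : V → L} {U : Submodule ℚ V} (hE : ExpV K E U) (T : Set L) : Submodule ℚ V where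
  carrier := {v | E v ∈ (matroid K L).closure T}
  zero_mem' := by
    show E 0 ∈ (matroid K L).closure T
    rw [mem_cl, hE.zero]
    exact isAlgebraic_one
  add_mem' := by
    intro v w hv hw
    have hv' : IsAlgebraic (Algebra.adjoin K T) (E v) := mem_cl.1 hv
    have hw' : IsAlgebraic (Algebra.adjoin K T) (E w) := mem_cl.1 hw
    show E (v + w) ∈ (matroid K L).closure T
    rw [mem_cl, hE.add]
    exact hv'.mul hw'
  smul_mem' := by
    intro r v hv
    have hv' : IsAlgebraic (Algebra.adjoin K T) (E v) := mem_cl.1 hv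
    show E (r • v) ∈ (matroid K L).closure T
    rw [mem_cl]
    refine IsAlgebraic.of_pow r.den_pos ?_
    rw [← hE.nsmul, den_smulV, hE.zsmul]
    obtain ⟨m, h | h⟩ := r.num.eq_nat_or_neg
    · rw [h, zpow_natCast]
      exact hv'.pow m
    · rw [h, zpow_neg, zpow_natCast]
      exact (hv'.pow m).inv

/-- the rank of the exponentials of a subspace -/
noncomputable def nu (K : Type*) {L V : Type*} [Field K] [Field L] [Algebra K L] [AddCommGroup V]
    [Module ℚ V] (E : V → L) (W : Submodule ℚ V) : ℕ∞ := (matroid K L).eRk (E '' (W : Set V))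

theorem nu_le {E : V → L} {U : Submodule ℚ V} (hE : ExpV K E U) {W : Submodule ℚ V} {T : Set L}
    (h : W ≤ GV hE T) : nu K E W ≤ (matroid K L).eRk T := by
  rw [nu, ← Matroid.eRk_closure_eq _ T]
  refine Matroid.eRk_mono _ ?_
  rintro _ ⟨v, hv, rfl⟩
  exact h hv

theorem nu_bot {E : V → L} {U : Submodule ℚ V} (hE : ExpV K E U) : nu K E ⊥ = 0 := by
  have h1 := nu_le hE (W := ⊥) (T := ∅) bot_le
  simpa using h1


theorem le_nu {E : V → L} {U : Submodule ℚ V} (hE : ExpV K E U) {W : Submodule ℚ V} {n : ℕ}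
    (z : Fin n → V) (hz : LinearIndependent ℚ z) (hU : ∀ i, z i ∈ U) (hW : ∀ i, z i ∈ W) :
    (n : ℕ∞) ≤ nu K E W := by
  have hI := hE.ind n z hU hz
  have hs : (matroid K L).Indep (Set.range fun i => E (z i)) := hI.coe_range
  have hc : (n : ℕ∞) ≤ (Set.range fun i => E (z i)).encard := by
    refine le_trans ?_ hI.injective.encard_range
    simp
  refine hc.trans (hs.encard_le_eRk_of_subset ?_)
  rintro _ ⟨i, rfl⟩
  exact ⟨z i, hW i, rfl⟩

/-- the defect is bounded by the codimension of `U` -/
theorem defect_le {E : V → L} {U : Submodule ℚ V} (hE : ExpV K E U) {d : ℕ}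
    (π : V →ₗ[ℚ] (Fin d → ℚ)) (hπ : LinearMap.ker π ≤ U) (W : Submodule ℚ V)
    [FiniteDimensional ℚ W] : (finrank ℚ W : ℕ∞) ≤ nu K E W + d := by
  set f : W →ₗ[ℚ] (Fin d → ℚ) := π.comp W.subtype with hf
  have h1 := LinearMap.finrank_range_add_finrank_ker f
  have h2 : finrank ℚ (LinearMap.range f) ≤ d := by
    refine (Submodule.finrank_le _).trans ?_
    simp
  set β := finBasis ℚ (LinearMap.ker f) with hβ
  have h3 : LinearIndependent ℚ (fun i => ((β i : W) : V)) := by
    have e1 := β.linearIndependent.map' (LinearMap.ker f).subtype (Submodule.ker_subtype _)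
    exact e1.map' W.subtype (Submodule.ker_subtype _)
  have h4 := le_nu hE (W := W) _ h3 (fun i => hπ (by
    have := (β i).2
    rw [LinearMap.mem_ker] at this ⊢
    exact this)) (fun i => (β i : W).2)
  calc (finrank ℚ W : ℕ∞) = ((finrank ℚ (LinearMap.range f) + finrank ℚ (LinearMap.ker f) : ℕ) : ℕ∞) := by
        rw [h1]
    _ ≤ ((finrank ℚ (LinearMap.ker f) + d : ℕ) : ℕ∞) := by
        exact_mod_cast by omega
    _ = (finrank ℚ (LinearMap.ker f) : ℕ∞) + d := by push_cast; rfl
    _ ≤ nu K E W + d := by gcongr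

end Run7.h84.TT
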