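import Pool.Agent.Run7.h84.TT.Dim

/-! The increase of the defect along a minimal relation. -/

set_option autoImplicit false

namespace Run7.h84.TT

open AlgebraicIndependent Module

variable {K L V : Type*} [Field K] [CharZero K] [Field L] [Algebra K L] [AddCommGroup V] [Module ℚ V]

omit [CharZero K] in
theorem indOver {I : Set L} {m : ℕ} {y : Fin m → L} (hy : Function.Injective y)
    (hI : (matroid K L).Indep (I ∪ Set.range y)) (hdis : Disjoint I (Set.range y)) :
    AlgebraicIndependent (Subalgebra.algebraicClosure (Algebra.adjoin K I) L) y := by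
  have h1 : AlgebraicIndependent K (fun x : ↥(I ∪ Set.range y) => (x : L)) := hI
  have h2 := h1.adjoin_of_disjoint (s := {x | (x : L) ∈ I}) (t := {x | (x : L) ∈ Set.range y}) (by
    rw [Set.disjoint_left]
    intro x hx hx'
    exact Set.disjoint_left.1 hdis hx hx')
  have h3 : (fun x : ↥(I ∪ Set.range y) => (x : L)) '' {x | (x : L) ∈ I} = I := by
    ext a
    constructor
    · rintro ⟨x, hx, rfl⟩
      exact hx
    · intro ha
      exact ⟨⟨a, Or.inl ha⟩, ha, rfl⟩
  rw [h3] at h2
  have h4 := h2.comp (fun k : Fin m => (⟨⟨y k, Or.inr ⟨k, rfl⟩⟩, ⟨k, rfl⟩⟩ :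
      {x : ↥(I ∪ Set.range y) | (x : L) ∈ Set.range y}))
    (fun i j hij => hy (congrArg (fun t => ((t : ↥(I ∪ Set.range y)) : L)) (congrArg Subtype.val hij)))
  exact h4.subalgebraAlgebraicClosure

omit [CharZero K] in
theorem linOver {R : Type*} [CommRing R] [Algebra R L] {m : ℕ} {y : Fin m → L}
    (hy : AlgebraicIndependent R y) {ι : Type*} (s : Finset ι) (P : ι → Fin m → ℕ) (g : ι → R)
    (h0 : ∑ i ∈ s, algebraMap R L (g i) * ∏ k, y k ^ P i k = 0) (p : Fin m → ℕ) :
    ∑ i ∈ s with P i = p, g i = 0 := by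
  classical
  set q : MvPolynomial (Fin m) R :=
    ∑ i ∈ s, MvPolynomial.monomial (Finsupp.equivFunOnFinite.symm (P i)) (g i) with hq
  have hq0 : MvPolynomial.aeval y q = 0 := by
    rw [hq, map_sum, ← h0]
    refine Finset.sum_congr rfl fun i _ => ?_
    rw [MvPolynomial.aeval_monomial, Finsupp.prod_fintype _ _ (fun i => pow_zero _)]
    rfl
  have hq1 : q = 0 := (injective_iff_map_eq_zero _).1 hy q hq0
  have h2 := congrArg (MvPolynomial.coeff (Finsupp.equivFunOnFinite.symm p)) hq1
  rw [hq, MvPolynomial.coeff_sum, MvPolynomial.coeff_zero] at h2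
  rw [Finset.sum_filter]
  refine Eq.trans (Finset.sum_congr rfl fun i _ => ?_) h2
  rw [MvPolynomial.coeff_monomial]
  simp only [EmbeddingLike.apply_eq_iff_eq]

theorem nu_le_finrank {E : V → L} {U : Submodule ℚ V} (hE : ExpV K E U) (W : Submodule ℚ V)
    [FiniteDimensional ℚ W] : nu K E W ≤ finrank ℚ W := by
  set β := finBasis ℚ W with hβ
  have h1 : W ≤ GV hE (Set.range fun k => E (β k : V)) := by
    intro v hv
    have h2 : v = ∑ k, β.repr ⟨v, hv⟩ k • (β k : V) := by
      have h3 : ((∑ i, β.repr ⟨v, hv⟩ i • β i : W) : V) = v := congrArg Subtype.val (β.sum_repr ⟨v, hv⟩)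
      rw [Submodule.coe_sum] at h3
      simp only [Submodule.coe_smul] at h3
      exact h3.symm
    rw [h2]
    refine Submodule.sum_mem _ fun k _ => Submodule.smul_mem _ _ ?_
    exact Matroid.mem_closure_of_mem _ ⟨k, rfl⟩ (Set.subset_univ _)
  refine (nu_le hE h1).trans ((Matroid.eRk_le_encard _ _).trans ?_)
  rw [← Set.image_univ]
  refine (Set.encard_image_le _ _).trans ?_
  simp

/-- along a minimal relation the rank increases less than the dimension -/
theorem step {E : V → L} {U : Submodule ℚ V} (hE : ExpV K E U) (W : Submodule ℚ V)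
    [FiniteDimensional ℚ W] {ι : Type*} (s : Finset ι) (v : ι → V) (c : ι → K) {i₀ : ι}
    (hi₀ : i₀ ∈ s) (h0 : ∑ i ∈ s, algebraMap K L (c i) * E (v i) = 0)
    (hmin : ∀ t ⊆ s, t.Nonempty → ∑ i ∈ t, algebraMap K L (c i) * E (v i) = 0 → t = s)
    (W' : Submodule ℚ V) [FiniteDimensional ℚ W'] (hWW' : W ≤ W') (hv : ∀ i ∈ s, v i - v i₀ ∈ W')
    (hrank : nu K E W + (finrank ℚ W' - finrank ℚ W : ℕ) ≤ nu K E W') :
    ∀ i ∈ s, v i - v i₀ ∈ W := by
  classical
  obtain ⟨C₀, hC₀⟩ := Submodule.exists_isCompl W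
  set C := C₀ ⊓ W' with hC
  have hsup : W ⊔ C = W' := by
    rw [hC, ← sup_inf_assoc_of_le _ hWW', hC₀.sup_eq_top, top_inf_eq]
  have hdis : Disjoint W C := hC₀.disjoint.mono_right inf_le_left
  have hCW' : C ≤ W' := inf_le_right
  have : FiniteDimensional ℚ C := Submodule.finiteDimensional_of_le hCW'
  have hfin : finrank ℚ W' = finrank ℚ W + finrank ℚ C := by
    have h1 := Submodule.finrank_sup_add_finrank_inf_eq W C
    rw [hsup, hdis.eq_bot, finrank_bot, add_zero] at h1
    exact h1
  set m := finrank ℚ C with hm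
  have hrank' : nu K E W + m ≤ nu K E W' := by
    rw [show finrank ℚ W' - finrank ℚ W = m by omega] at hrank
    exact hrank
  -- decomposition
  have hdec : ∀ i, ∃ w u : V, i ∈ s → w ∈ W ∧ u ∈ C ∧ w + u = v i - v i₀ := by
    intro i
    by_cases hi : i ∈ s
    · have h1 := hv i hi
      rw [← hsup] at h1
      obtain ⟨w, hw, u, hu, hwu⟩ := Submodule.mem_sup.1 h1
      exact ⟨w, u, fun _ => ⟨hw, hu, hwu⟩⟩
    · exact ⟨0, 0, fun h => absurd h hi⟩
  choose w u hwu using hdec
  have hu0 : u i₀ = 0 := by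
    obtain ⟨h1, h2, h3⟩ := hwu i₀ hi₀
    rw [sub_self] at h3
    have h4 : u i₀ = -w i₀ := eq_neg_of_add_eq_zero_right h3
    exact (Submodule.disjoint_def.1 hdis) _ (h4 ▸ W.neg_mem h1) h2
  set β := finBasis ℚ C with hβ
  obtain ⟨N, hN, A, P, hP⟩ := nat_coords s
    (fun i (k : Fin m) => if h : u i ∈ C then β.repr ⟨u i, h⟩ k else 0)
  have hN' : (N : ℚ) ≠ 0 := by exact_mod_cast hN
  set z : Fin m → V := fun k => (N : ℚ)⁻¹ • (β k : V) with hz
  set sh : V := ∑ k, A • z k with hsh
  have hexp : ∀ x (hx : x ∈ C), x = ∑ k, β.repr ⟨x, hx⟩ k • (β k : V) := by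
    intro x hx
    have h3 : ((∑ i, β.repr ⟨x, hx⟩ i • β i : C) : V) = x := congrArg Subtype.val (β.sum_repr ⟨x, hx⟩)
    rw [Submodule.coe_sum] at h3
    simp only [Submodule.coe_smul] at h3
    exact h3.symm
  have hsum : ∀ i ∈ s, ∑ k, P i k • z k = u i + sh := by
    intro i hi
    have hui := (hwu i hi).2.1
    have h2 : ∀ k, P i k • z k = β.repr ⟨u i, hui⟩ k • (β k : V) + A • z k := by
      intro k
      rw [← Nat.cast_smul_eq_nsmul ℚ, ← Nat.cast_smul_eq_nsmul ℚ A, hP i hi k, dif_pos hui,
        add_smul, hz]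
      simp only [smul_smul]
      congr 2
      field_simp
    rw [Finset.sum_congr rfl (fun k _ => h2 k), Finset.sum_add_distrib, ← hexp _ hui]
  -- the basis of the matroid
  obtain ⟨I, hI⟩ := (matroid K L).exists_isBasis (E '' (W : Set V)) (Set.subset_univ _)
  have hIcl : (matroid K L).closure I = (matroid K L).closure (E '' (W : Set V)) :=
    hI.closure_eq_closure
  have hIcard : I.encard = nu K E W := hI.encard_eq_eRk
  have hIfin : I.Finite := by
    refine Set.finite_of_encard_le_coe (k := finrank ℚ W) ?_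
    rw [hIcard]
    exact nu_le_finrank hE W
  set R : Set L := Set.range fun k => E (z k) with hR
  have hRfin : R.Finite := Set.finite_range _
  have hRcard : R.encard ≤ m := by
    rw [hR, ← Set.image_univ]
    refine (Set.encard_image_le _ _).trans ?_
    simp
  have hW'G : W' ≤ GV hE (I ∪ R) := by
    rw [← hsup, sup_le_iff]
    constructor
    · intro x hx
      have h1 : E x ∈ (matroid K L).closure I := by
        rw [hIcl]
        exact Matroid.mem_closure_of_mem _ ⟨x, hx, rfl⟩ (Set.subset_univ _)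
      exact Matroid.closure_subset_closure _ Set.subset_union_left h1
    · intro x hx
      rw [hexp x hx]
      refine Submodule.sum_mem _ fun k _ => Submodule.smul_mem _ _ ?_
      have h1 : (β k : V) = (N : ℚ) • z k := by
        rw [hz]
        simp only [smul_smul]
        rw [mul_inv_cancel₀ hN', one_smul]
      rw [h1]
      refine Submodule.smul_mem _ _ ?_
      exact Matroid.mem_closure_of_mem _ (Or.inr ⟨k, rfl⟩) (Set.subset_univ _)
  have hIne : I.encard ≠ ⊤ := by rwa [ne_eq, Set.encard_eq_top_iff, Set.not_infinite]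
  have c1 : I.encard + m ≤ (matroid K L).eRk (I ∪ R) := by
    rw [hIcard]
    exact hrank'.trans (nu_le hE hW'G)
  have c2 : (matroid K L).eRk (I ∪ R) ≤ (I ∪ R).encard := Matroid.eRk_le_encard _ _
  have c3 : (I ∪ R).encard + (I ∩ R).encard = I.encard + R.encard := Set.encard_union_add_encard_inter _ _
  have c4 : (I ∪ R).encard ≤ I.encard + R.encard := by rw [← c3]; exact le_self_add
  have c5 : I.encard + R.encard ≤ I.encard + m := by gcongr
  have hindep : (matroid K L).Indep (I ∪ R) := by
    rw [Matroid.indep_iff_eRk_eq_encard_of_finite (hIfin.union hRfin)]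
    exact le_antisymm c2 ((c4.trans c5).trans c1)
  have hRm : R.encard = m := by
    refine le_antisymm hRcard ?_
    have h1 : I.encard + m ≤ I.encard + R.encard := (c1.trans c2).trans c4
    exact (ENat.add_le_add_iff_left hIne).1 h1
  have hinj : Function.Injective fun k => E (z k) := by
    rw [← Set.injOn_univ]
    refine Set.Finite.injOn_of_encard_image_eq Set.finite_univ ?_
    rw [Set.image_univ, ← hR, hRm]
    simp
  have hdisj : Disjoint I R := by
    rw [Set.disjoint_iff_inter_eq_empty, ← Set.encard_eq_zero]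
    have h1 : I.encard + m + (I ∩ R).encard ≤ I.encard + m + 0 := by
      rw [add_zero]
      calc I.encard + m + (I ∩ R).encard ≤ (I ∪ R).encard + (I ∩ R).encard := by
            gcongr
            exact c1.trans c2
        _ = I.encard + R.encard := c3
        _ ≤ I.encard + m := c5
    have h2 : I.encard + m ≠ ⊤ := by
      exact WithTop.add_ne_top.2 ⟨hIne, ENat.natCast_ne_top m⟩
    exact le_antisymm ((ENat.add_le_add_iff_left h2).1 h1) bot_le
  have hAI := indOver hinj hindep hdisj
  -- the relation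
  have hwOm : ∀ i, ∃ g : Subalgebra.algebraicClosure (Algebra.adjoin K I) L,
      i ∈ s → (g : L) = algebraMap K L (c i) * E (w i) := by
    intro i
    by_cases hi : i ∈ s
    · have h1 : E (w i) ∈ (matroid K L).closure I := by
        rw [hIcl]
        exact Matroid.mem_closure_of_mem _ ⟨w i, (hwu i hi).1, rfl⟩ (Set.subset_univ _)
      have h2 : IsAlgebraic (Algebra.adjoin K I) (E (w i)) := mem_cl.1 h1
      have h3 : IsAlgebraic (Algebra.adjoin K I) (algebraMap K L (c i)) :=
        isAlgebraic_algebraMap (algebraMap K (Algebra.adjoin K I) (c i))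
      exact ⟨⟨algebraMap K L (c i) * E (w i), h3.mul h2⟩, fun _ => rfl⟩
    · exact ⟨0, fun h => absurd h hi⟩
  choose g hg using hwOm
  have hrel : ∑ i ∈ s, algebraMap _ L (g i) * ∏ k, E (z k) ^ P i k = 0 := by
    have h1 : ∀ i ∈ s, algebraMap _ L (g i) * ∏ k, E (z k) ^ P i k =
        (algebraMap K L (c i) * E (v i)) * (E (v i₀))⁻¹ * E sh := by
      intro i hi
      have h2 : ∏ k, E (z k) ^ P i k = E (u i + sh) := by
        rw [← hsum i hi, hE.prod]
        simp only [hE.nsmul]
      have h3 : E (v i) = E (v i₀) * (E (w i) * E (u i)) := by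
        rw [← hE.add, ← hE.add, (hwu i hi).2.2]
        congr 1
        abel
      have h4 : algebraMap _ L (g i) = algebraMap K L (c i) * E (w i) := hg i hi
      rw [h2, h4, hE.add, h3]
      have := hE.ne (v i₀)
      field_simp
    rw [Finset.sum_congr rfl h1, ← Finset.sum_mul, ← Finset.sum_mul, h0, zero_mul, zero_mul]
  have hco := linOver hAI s P g hrel (P i₀)
  have hPu : ∀ i ∈ s, P i = P i₀ → u i = 0 := by
    intro i hi hPi
    have h1 := hsum i hi
    rw [hPi, hsum i₀ hi₀, hu0] at h1
    exact (add_right_cancel h1).symm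
  have hsub : (s.filter fun i => P i = P i₀) = s := by
    refine hmin _ (Finset.filter_subset _ _) ⟨i₀, Finset.mem_filter.2 ⟨hi₀, rfl⟩⟩ ?_
    have h1 := congrArg (fun x : Subalgebra.algebraicClosure (Algebra.adjoin K I) L => (x : L)) hco
    simp only [ZeroMemClass.coe_zero] at h1
    rw [AddSubmonoidClass.coe_finsetSum] at h1
    have h2 : ∀ i ∈ s.filter (fun i => P i = P i₀), algebraMap K L (c i) * E (v i) =
        (g i : L) * E (v i₀) := by
      intro i hi
      obtain ⟨his, hPi⟩ := Finset.mem_filter.1 hi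
      have h3 : v i = w i + v i₀ := by
        have h4 := (hwu i his).2.2
        rw [hPu i his hPi, add_zero] at h4
        rw [h4]
        abel
      rw [hg i his, h3, hE.add]
      ring
    rw [Finset.sum_congr rfl h2, ← Finset.sum_mul, h1, zero_mul]
  intro i hi
  have h1 : P i = P i₀ := by
    rw [← hsub] at hi
    exact (Finset.mem_filter.1 hi).2
  have h2 := (hwu i hi).2.2
  rw [hPu i hi h1, add_zero] at h2
  rw [← h2]
  exact (hwu i hi).1

end Run7.h84.TT
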