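import Pool.Agent.Run7.h84.TT.Dim2

/-! The number of successive independent minimal relations is at most the codimension. -/

set_option autoImplicit false

namespace Run7.h84.TT

open AlgebraicIndependent Module

variable {K L V : Type*} [Field K] [CharZero K] [Field L] [Algebra K L] [AddCommGroup V] [Module ℚ V]

/-- a minimal relation -/
def MinRel (K : Type*) {L V : Type*} [Field K] [Field L] [Algebra K L] (E : V → L) {n : ℕ}
    (c : Fin n → K) (v : Fin n → V) : Prop :=
  ∑ i, algebraMap K L (c i) * E (v i) = 0 ∧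
    ∀ t : Finset (Fin n), t.Nonempty → ∑ i ∈ t, algebraMap K L (c i) * E (v i) = 0 → t = Finset.univ

/-- the space spanned by the differences -/
def diffSpan {V : Type*} [AddCommGroup V] [Module ℚ V] {n : ℕ} (v : Fin n → V) : Submodule ℚ V :=
  Submodule.span ℚ (Set.range fun p : Fin n × Fin n => v p.1 - v p.2)

instance {n : ℕ} (v : Fin n → V) : FiniteDimensional ℚ (diffSpan v) :=
  FiniteDimensional.span_of_finite ℚ (Set.finite_range _)

theorem diff_mem {n : ℕ} (v : Fin n → V) (i j : Fin n) : v i - v j ∈ diffSpan v :=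
  Submodule.subset_span ⟨(i, j), rfl⟩

theorem diffSpan_le {n : ℕ} (v : Fin n → V) (W : Submodule ℚ V) (j : Fin n)
    (h : ∀ i, v i - v j ∈ W) : diffSpan v ≤ W := by
  refine Submodule.span_le.2 ?_
  rintro _ ⟨⟨a, b⟩, rfl⟩
  have : v a - v b = (v a - v j) - (v b - v j) := by abel
  simp only
  rw [this]
  exact W.sub_mem (h a) (h b)

theorem finrank_diffSpan {n : ℕ} (v : Fin n → V) : finrank ℚ (diffSpan v) ≤ n - 1 := by
  classical
  rcases n with _ | n
  · have : diffSpan v = ⊥ := by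
      rw [eq_bot_iff]
      refine Submodule.span_le.2 ?_
      rintro _ ⟨⟨a, b⟩, rfl⟩
      exact Fin.elim0 a
    rw [this, finrank_bot]
  · set D : Finset V := (Finset.univ.erase (0 : Fin (n + 1))).image fun i => v i - v 0 with hD
    have hDcard : D.card ≤ n := by
      refine Finset.card_image_le.trans ?_
      rw [Finset.card_erase_of_mem (Finset.mem_univ _), Finset.card_univ, Fintype.card_fin]
      omega
    have h1 : diffSpan v ≤ Submodule.span ℚ (D : Set V) := by
      refine diffSpan_le v _ 0 fun i => ?_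
      by_cases hi : i = 0
      · rw [hi, sub_self]
        exact Submodule.zero_mem _
      · exact Submodule.subset_span (Finset.mem_coe.2 (Finset.mem_image_of_mem _
          (Finset.mem_erase.2 ⟨hi, Finset.mem_univ _⟩)))
    have : FiniteDimensional ℚ (Submodule.span ℚ (D : Set V)) :=
      FiniteDimensional.span_of_finite ℚ D.finite_toSet
    have h2 : finrank ℚ (Submodule.span ℚ (D : Set V)) ≤ D.card := finrank_span_finset_le_card (R := ℚ) D
    have h3 := Submodule.finrank_mono h1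
    omega

theorem indstep {E : V → L} {U : Submodule ℚ V} (hE : ExpV K E U) (W : Submodule ℚ V)
    [FiniteDimensional ℚ W] {t : ℕ} (hW : nu K E W + t ≤ finrank ℚ W) {n : ℕ} {c : Fin n → K}
    {v : Fin n → V} (h : MinRel K E c v) (hnew : ¬ diffSpan v ≤ W) :
    nu K E (W ⊔ diffSpan v) + ((t + 1 : ℕ) : ℕ∞) ≤ finrank ℚ (W ⊔ diffSpan v : Submodule ℚ V) := by
  classical
  obtain ⟨hr1, hr2⟩ := h
  rcases n with _ | n
  · exfalso
    apply hnew
    refine Submodule.span_le.2 ?_
    rintro _ ⟨⟨a, b⟩, rfl⟩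
    exact Fin.elim0 a
  have hf' : FiniteDimensional ℚ (W ⊔ diffSpan v : Submodule ℚ V) := Submodule.finiteDimensional_sup W _
  have hfr2 : finrank ℚ W ≤ finrank ℚ (W ⊔ diffSpan v : Submodule ℚ V) := Submodule.finrank_mono le_sup_left
  have hlt : ¬ (nu K E W + (finrank ℚ (W ⊔ diffSpan v : Submodule ℚ V) - finrank ℚ W : ℕ) ≤
      nu K E (W ⊔ diffSpan v)) := by
    intro hle
    apply hnew
    refine diffSpan_le v W 0 fun i => ?_
    exact step hE W Finset.univ v c (Finset.mem_univ 0) hr1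
      (fun t _ ht h => hr2 t ht h) (W ⊔ diffSpan v) le_sup_left
      (fun i _ => Submodule.mem_sup_right (diff_mem v i 0)) hle i (Finset.mem_univ i)
  push Not at hlt
  have h1 : nu K E (W ⊔ diffSpan v) + 1 ≤
      nu K E W + (finrank ℚ (W ⊔ diffSpan v : Submodule ℚ V) - finrank ℚ W : ℕ) :=
    Order.add_one_le_of_lt hlt
  calc nu K E (W ⊔ diffSpan v) + ((t + 1 : ℕ) : ℕ∞) = (nu K E (W ⊔ diffSpan v) + 1) + t := by
        push_cast; ring
    _ ≤ (nu K E W + (finrank ℚ (W ⊔ diffSpan v : Submodule ℚ V) - finrank ℚ W : ℕ)) + t := by gcongr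
    _ = (nu K E W + t) + (finrank ℚ (W ⊔ diffSpan v : Submodule ℚ V) - finrank ℚ W : ℕ) := by ring
    _ ≤ finrank ℚ W + (finrank ℚ (W ⊔ diffSpan v : Submodule ℚ V) - finrank ℚ W : ℕ) := by gcongr
    _ = finrank ℚ (W ⊔ diffSpan v : Submodule ℚ V) := by
      rw [← Nat.cast_add]
      congr 1
      omega

theorem bound {E : V → L} {U : Submodule ℚ V} (hE : ExpV K E U) {d : ℕ}
    (π : V →ₗ[ℚ] (Fin d → ℚ)) (hπ : LinearMap.ker π ≤ U) (W : Submodule ℚ V)
    [FiniteDimensional ℚ W] {t : ℕ} (hW : nu K E W + t ≤ finrank ℚ W) : t ≤ d := by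
  have h1 := hW.trans (defect_le hE π hπ W)
  have h2 : nu K E W ≠ ⊤ := ne_top_of_le_ne_top (ENat.natCast_ne_top _) (nu_le_finrank hE W)
  exact_mod_cast (ENat.add_le_add_iff_left h2).1 h1

/-- a sequence of minimal relations, each with a new difference, has length at most `d` -/
theorem seq_bound {E : V → L} {U : Submodule ℚ V} (hE : ExpV K E U) {d : ℕ}
    (π : V →ₗ[ℚ] (Fin d → ℚ)) (hπ : LinearMap.ker π ≤ U) (N : ℕ) (n : ℕ → ℕ)
    (c : ∀ j, Fin (n j) → K) (v : ∀ j, Fin (n j) → V) (hrel : ∀ j < N, MinRel K E (c j) (v j))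
    (hnew : ∀ j < N, ¬ diffSpan (v j) ≤ ⨆ i ∈ Finset.range j, diffSpan (v i)) : N ≤ d := by
  have key : ∀ j ≤ N, FiniteDimensional ℚ (⨆ i ∈ Finset.range j, diffSpan (v i) : Submodule ℚ V) ∧
      nu K E (⨆ i ∈ Finset.range j, diffSpan (v i)) + j ≤
        finrank ℚ (⨆ i ∈ Finset.range j, diffSpan (v i) : Submodule ℚ V) := by
    intro j
    induction j with
    | zero =>
      intro _
      have h1 : (⨆ i ∈ Finset.range 0, diffSpan (v i) : Submodule ℚ V) = ⊥ := by simp
      rw [h1, nu_bot hE]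
      exact ⟨inferInstance, by simp⟩
    | succ j ih =>
      intro hj
      obtain ⟨h1, h2⟩ := ih (by omega)
      have h3 : (⨆ i ∈ Finset.range (j + 1), diffSpan (v i) : Submodule ℚ V) =
          (⨆ i ∈ Finset.range j, diffSpan (v i)) ⊔ diffSpan (v j) := by
        rw [Finset.range_add_one, Finset.iSup_insert, sup_comm]
      rw [h3]
      exact ⟨Submodule.finiteDimensional_sup _ _, indstep hE _ h2 (hrel j (by omega)) (hnew j (by omega))⟩
  obtain ⟨h1, h2⟩ := key N le_rfl
  exact bound hE π hπ _ h2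

/-- two minimal relations in codimension one have the same differences -/
theorem same_span {E : V → L} {U : Submodule ℚ V} (hE : ExpV K E U)
    (π : V →ₗ[ℚ] (Fin 1 → ℚ)) (hπ : LinearMap.ker π ≤ U) {n m : ℕ} {c : Fin n → K} {v : Fin n → V}
    {c' : Fin m → K} {v' : Fin m → V} (h : MinRel K E c v) (h' : MinRel K E c' v')
    (hne : diffSpan v ≠ ⊥) : diffSpan v' ≤ diffSpan v := by
  by_contra hcon
  have h1 : nu K E (⊥ : Submodule ℚ V) + ((0 : ℕ) : ℕ∞) ≤ finrank ℚ (⊥ : Submodule ℚ V) := by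
    rw [nu_bot hE]
    simp
  have h2 := indstep hE ⊥ h1 h (fun hle => hne (le_bot_iff.1 hle))
  rw [bot_sup_eq] at h2
  have h3 := indstep hE (diffSpan v) h2 h' hcon
  have : FiniteDimensional ℚ (diffSpan v ⊔ diffSpan v' : Submodule ℚ V) :=
    Submodule.finiteDimensional_sup _ _
  have h4 := bound hE π hπ _ h3
  omega

/-- the short relations -/
theorem short {E : V → L} {U : Submodule ℚ V} (hE : ExpV K E U) {d : ℕ}
    (π : V →ₗ[ℚ] (Fin d → ℚ)) (hπ : LinearMap.ker π ≤ U) (k : ℕ) :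
    ∃ W : Submodule ℚ V, FiniteDimensional ℚ W ∧ finrank ℚ W ≤ (k - 1) * d ∧
      ∀ n ≤ k, ∀ (c : Fin n → K) (v : Fin n → V), MinRel K E c v → diffSpan v ≤ W := by
  classical
  by_contra hcon
  push Not at hcon
  have key : ∀ t : ℕ, ∃ W : Submodule ℚ V, FiniteDimensional ℚ W ∧ finrank ℚ W ≤ (k - 1) * t ∧
      nu K E W + t ≤ finrank ℚ W := by
    intro t
    induction t with
    | zero =>
      refine ⟨⊥, inferInstance, by simp, ?_⟩
      rw [nu_bot hE]
      simp
    | succ t ih =>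
      obtain ⟨W, hWf, hW1, hW2⟩ := ih
      have htd : t ≤ d := bound hE π hπ W hW2
      obtain ⟨n, hn, c, v, hr, hnew⟩ := hcon W hWf (hW1.trans (Nat.mul_le_mul_left _ htd))
      refine ⟨W ⊔ diffSpan v, Submodule.finiteDimensional_sup _ _, ?_, indstep hE W hW2 hr hnew⟩
      refine (Submodule.finrank_add_le_finrank_add_finrank W _).trans ?_
      have h1 := finrank_diffSpan v
      calc finrank ℚ W + finrank ℚ (diffSpan v) ≤ (k - 1) * t + (k - 1) := by omega
        _ = (k - 1) * (t + 1) := by ring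
  obtain ⟨W, hWf, -, hW2⟩ := key (d + 1)
  have := bound hE π hπ W hW2
  omega

end Run7.h84.TT
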