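import Pool.Agent.Run7.h84.TT.Tri

/-! Three-term relations on the Fermat curve `x ^ N + y ^ N = 1`. -/

set_option autoImplicit false

namespace Run7.h84.TT

open Polynomial

variable {K : Type*} [Field K] [CharZero K]

/-- the Fermat polynomial -/
noncomputable def FN (K : Type*) [Field K] (N : ℕ) : (K[X])[X] := X ^ N - C (1 - X ^ N)

omit [CharZero K] in
theorem FN_monic {N : ℕ} (hN : N ≠ 0) : (FN K N).Monic :=
  monic_X_pow_sub_C _ hN

omit [CharZero K] in
theorem FN_natDegree {N : ℕ} : (FN K N).natDegree = N := natDegree_X_pow_sub_C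

theorem FN_irr {N : ℕ} (hN : N ≠ 0) : Irreducible (FN K N) := by
  have hprime : Prime (X - C 1 : K[X]) := prime_X_sub_C 1
  have hP : (Ideal.span {(X - C 1 : K[X])}).IsPrime :=
    (Ideal.span_singleton_prime hprime.ne_zero).2 hprime
  refine Polynomial.IsEisensteinAt.irreducible (𝓟 := Ideal.span {(X - C 1 : K[X])}) ?_ hP
    (FN_monic hN).isPrimitive (by rw [FN_natDegree]; exact Nat.pos_of_ne_zero hN)
  refine ⟨?_, ?_, ?_⟩
  · rw [(FN_monic hN).leadingCoeff]
    exact fun h => hP.ne_top ((Ideal.eq_top_iff_one _).2 h)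
  · intro n hn
    rw [FN_natDegree] at hn
    rw [Ideal.mem_span_singleton, dvd_iff_isRoot, FN, coeff_sub, coeff_X_pow, if_neg hn.ne, zero_sub]
    rw [coeff_C]
    split_ifs with h0
    · simp [IsRoot]
    · simp [IsRoot]
  · rw [FN, coeff_sub, coeff_X_pow, if_neg (Ne.symm hN), zero_sub, coeff_C_zero]
    intro h
    rw [neg_mem_iff, Ideal.span_singleton_pow, Ideal.mem_span_singleton] at h
    obtain ⟨g, hg⟩ := h
    have hd := congrArg (fun p => eval 1 (derivative p)) hg
    simp [derivative_pow] at hd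
    exact hN hd

theorem single_class (r : Fin 3 → ℕ) (h : ¬ ∀ i j, r i = r j) : ∃ l, ∀ j, j ≠ l → r j ≠ r l := by
  by_contra hcon
  push Not at hcon
  obtain ⟨a, ha, ha'⟩ := hcon 0
  obtain ⟨b, hb, hb'⟩ := hcon 1
  obtain ⟨c, hc, hc'⟩ := hcon 2
  apply h
  have h01 : r 0 = r 1 ∧ r 1 = r 2 := by
    fin_cases a <;> fin_cases b <;> fin_cases c <;> simp_all
  intro i j
  fin_cases i <;> fin_cases j <;> simp [h01.1, h01.2]

variable {L : Type*} [Field L] [Algebra K L]

theorem indep_y {N : ℕ} (hN : N ≠ 0) {x y : L} (hx : Transcendental K x) (hxy : x ^ N + y ^ N = 1)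
    (P : (K[X])[X]) (hP : P.natDegree < N)
    (h : eval₂ (aeval x : K[X] →ₐ[K] L).toRingHom y P = 0) : P = 0 := by
  let _ : Algebra K[X] L := (aeval x : K[X] →ₐ[K] L).toRingHom.toAlgebra
  have halg : ∀ f : K[X], algebraMap K[X] L f = aeval x f := fun f => rfl
  have hinj : Function.Injective (algebraMap K[X] L) := transcendental_iff_injective.1 hx
  have : FaithfulSMul K[X] L := (faithfulSMul_iff_algebraMap_injective K[X] L).2 hinj
  have hF : Polynomial.aeval y (FN K N) = 0 := by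
    rw [FN, map_sub, map_pow, aeval_X, aeval_C, halg]
    simp only [map_sub, map_one, map_pow, aeval_X]
    linear_combination hxy
  have hint : IsIntegral K[X] y := ⟨FN K N, FN_monic hN, by rw [← aeval_def]; exact hF⟩
  have h1 : minpoly K[X] y ∣ FN K N := minpoly.isIntegrallyClosed_dvd hint hF
  have h2 : minpoly K[X] y ∣ P := minpoly.isIntegrallyClosed_dvd hint (by rw [aeval_def]; exact h)
  have h3 : Associated (FN K N) (minpoly K[X] y) :=
    ((FN_irr hN).dvd_iff.1 h1).resolve_left (minpoly.not_isUnit _ _)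
  by_contra hP0
  have h4 := natDegree_le_of_dvd (h3.dvd_iff_dvd_left.2 h2) hP0
  rw [FN_natDegree] at h4
  omega

theorem expoNat {N : ℕ} (hN : N ≠ 0) {x y : L} (hx : Transcendental K x)
    (hxy : x ^ N + y ^ N = 1) {D : Fin 3 → K} (hD : ∀ i, D i ≠ 0) {p q : Fin 3 → ℕ}
    (h : ∑ i, algebraMap K L (D i) * (x ^ p i * y ^ q i) = 0) : ∀ i j, q i % N = q j % N := by
  by_contra hcon
  obtain ⟨l, hl⟩ := single_class (fun i => q i % N) hcon
  have hN0 : 0 < N := Nat.pos_of_ne_zero hN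
  set P : (K[X])[X] := ∑ i, C (C (D i) * X ^ p i * (1 - X ^ N) ^ (q i / N)) * X ^ (q i % N) with hPdef
  have hPdeg : P.natDegree < N := by
    have : P.natDegree ≤ N - 1 := by
      refine natDegree_sum_le_of_forall_le _ _ fun i _ => ?_
      refine (natDegree_C_mul_X_pow_le _ _).trans ?_
      have := Nat.mod_lt (q i) hN0
      omega
    omega
  have hP0 : P = 0 := by
    refine indep_y hN hx hxy P hPdeg ?_
    rw [hPdef, eval₂_finsetSum, ← h]
    refine Finset.sum_congr rfl fun i _ => ?_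
    rw [eval₂_mul, eval₂_C, eval₂_X_pow]
    change (aeval x) (C (D i) * X ^ p i * (1 - X ^ N) ^ (q i / N)) * y ^ (q i % N) = _
    simp only [map_mul, map_pow, aeval_C, aeval_X, map_sub, map_one]
    rw [show (1 : L) - x ^ N = y ^ N by linear_combination -hxy, ← pow_mul]
    rw [mul_assoc, mul_assoc, ← pow_add, Nat.div_add_mod]
  have hc := congrArg (fun f => coeff f (q l % N)) hP0
  simp only [hPdef, finsetSum_coeff, coeff_C_mul, coeff_X_pow, coeff_zero] at hc
  rw [Finset.sum_eq_single l] at hc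
  · rw [if_pos rfl, mul_one] at hc
    have h1 : (1 - X ^ N : K[X]) ≠ 0 := by
      intro h0
      have := congrArg (eval 0) h0
      simp [hN] at this
    exact mul_ne_zero (mul_ne_zero (by simpa using hD l) (pow_ne_zero _ X_ne_zero))
      (pow_ne_zero _ h1) hc
  · intro j _ hj
    rw [if_neg (fun e => hl j hj e.symm), mul_zero]
  · intro hh
    exact absurd (Finset.mem_univ _) hh

theorem expoInt {N : ℕ} (hN : N ≠ 0) {x y : L} (hx : Transcendental K x)
    (hxy : x ^ N + y ^ N = 1) (hy0 : y ≠ 0) {D : Fin 3 → K} (hD : ∀ i, D i ≠ 0) {p q : Fin 3 → ℤ}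
    (h : ∑ i, algebraMap K L (D i) * (x ^ p i * y ^ q i) = 0) : ∀ i j, (N : ℤ) ∣ q i - q j := by
  have hx0 : x ≠ 0 := fun e => hx (e ▸ isAlgebraic_zero)
  obtain ⟨A, hA⟩ : ∃ A : ℕ, ∀ i, 0 ≤ p i + N * A ∧ 0 ≤ q i + N * A := by
    refine ⟨∑ i, ((p i).natAbs + (q i).natAbs), fun i => ?_⟩
    have h1 : (p i).natAbs + (q i).natAbs ≤ ∑ i, ((p i).natAbs + (q i).natAbs) :=
      Finset.single_le_sum (f := fun i => (p i).natAbs + (q i).natAbs)
        (fun _ _ => Nat.zero_le _) (Finset.mem_univ i)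
    set B := ∑ i, ((p i).natAbs + (q i).natAbs)
    have h2 : (B : ℤ) ≤ N * B := by
      have : (1 : ℤ) ≤ N := by exact_mod_cast Nat.one_le_iff_ne_zero.2 hN
      nlinarith [Int.natCast_nonneg B]
    have h3 : ((p i).natAbs : ℤ) + (q i).natAbs ≤ B := by exact_mod_cast h1
    constructor <;> omega
  have hp : ∀ i, ((p i + N * A).toNat : ℤ) = p i + N * A := fun i => Int.toNat_of_nonneg (hA i).1
  have hq : ∀ i, ((q i + N * A).toNat : ℤ) = q i + N * A := fun i => Int.toNat_of_nonneg (hA i).2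
  have h1 := expoNat (p := fun i => (p i + N * A).toNat) (q := fun i => (q i + N * A).toNat) hN hx
    hxy hD (by
      have : ∀ i, algebraMap K L (D i) * (x ^ (p i + N * A).toNat * y ^ (q i + N * A).toNat) =
          algebraMap K L (D i) * (x ^ p i * y ^ q i) * (x ^ ((N * A : ℕ) : ℤ) * y ^ ((N * A : ℕ) : ℤ)) := by
        intro i
        rw [← zpow_natCast x (p i + N * A).toNat, ← zpow_natCast y (q i + N * A).toNat, hp, hq,
          zpow_add₀ hx0, zpow_add₀ hy0]
        push_cast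
        ring
      rw [Finset.sum_congr rfl (fun i _ => this i), ← Finset.sum_mul, h, zero_mul])
  intro i j
  have h2 : ((q i + N * A).toNat : ℤ) % N = ((q j + N * A).toNat : ℤ) % N := by exact_mod_cast h1 i j
  rw [hq, hq] at h2
  have h4 : (N : ℤ) ∣ (q i + N * A) - (q j + N * A) := Int.ModEq.dvd h2.symm
  rwa [show (q i + N * A) - (q j + N * A) = q i - q j by ring] at h4

theorem fermat {N : ℕ} (hN : N ≠ 0) {x y : L} (hx : Transcendental K x)
    (hxy : x ^ N + y ^ N = 1) {D : Fin 3 → K} (hD : ∀ i, D i ≠ 0) {p q : Fin 3 → ℤ}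
    (hinj : ∀ i j, p i = p j → q i = q j → i = j)
    (h : ∑ i, algebraMap K L (D i) * (x ^ p i * y ^ q i) = 0) :
    ∃ σ : Equiv.Perm (Fin 3), ∃ μ : K, ∃ p₀ q₀ : ℤ, ∀ i, p (σ i) = p₀ + N * tm i ∧
      q (σ i) = q₀ + N * tk i ∧ D (σ i) = μ * tc i := by
  have hx0 : x ≠ 0 := fun e => hx (e ▸ isAlgebraic_zero)
  have hu : Transcendental K (x ^ N) := fun e => hx (e.of_pow (Nat.pos_of_ne_zero hN))
  have hyt : Transcendental K y := by
    intro e
    apply hu
    rw [show x ^ N = 1 - y ^ N by linear_combination hxy]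
    exact isAlgebraic_one.sub (e.pow N)
  have hy0 : y ≠ 0 := fun e => hyt (e ▸ isAlgebraic_zero)
  have h1 := expoInt hN hx hxy hy0 hD h
  have h2 := expoInt (p := q) (q := p) hN hyt (by rw [add_comm]; exact hxy) hx0 hD (by
    rw [← h]
    exact Finset.sum_congr rfl fun i _ => by ring)
  choose M hM using fun i => h2 i 0
  choose Q hQ using fun i => h1 i 0
  have hM' : ∀ i, p i = p 0 + N * M i := fun i => by linarith [hM i]
  have hQ' : ∀ i, q i = q 0 + N * Q i := fun i => by linarith [hQ i]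
  obtain ⟨σ, μ, m₀, k₀, hσ⟩ := triInt (m := M) (k := Q) hu hD
    (fun i j e1 e2 => hinj i j (by rw [hM' i, hM' j, e1]) (by rw [hQ' i, hQ' j, e2])) (by
      have h3 : ∀ i, algebraMap K L (D i) * (x ^ p i * y ^ q i) =
          (algebraMap K L (D i) * ((x ^ N) ^ M i * (1 - x ^ N) ^ Q i)) * (x ^ p 0 * y ^ q 0) := by
        intro i
        rw [show (1 : L) - x ^ N = y ^ N by linear_combination -hxy, hM' i, hQ' i, zpow_add₀ hx0,
          zpow_add₀ hy0, zpow_mul, zpow_mul, zpow_natCast, zpow_natCast]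
        ring
      rw [Finset.sum_congr rfl (fun i _ => h3 i), ← Finset.sum_mul] at h
      exact (mul_eq_zero.1 h).resolve_right
        (mul_ne_zero (zpow_ne_zero _ hx0) (zpow_ne_zero _ hy0)))
  refine ⟨σ, μ, p 0 + N * m₀, q 0 + N * k₀, fun i => ?_⟩
  obtain ⟨e1, e2, e3⟩ := hσ i
  exact ⟨by rw [hM' (σ i), e1]; ring, by rw [hQ' (σ i), e2]; ring, e3⟩

end Run7.h84.TT
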