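import Pool.Agent.Run7.h84.TT.Uniq

/-! Relations supported in the plane of a three-term relation are multiples of it. -/

set_option autoImplicit false

namespace Run7.h84.TT

open Polynomial

variable {K L : Type*} [Field K] [CharZero K] [Field L] [Algebra K L]

theorem FN_dvd {N : ℕ} (hN : N ≠ 0) {x y : L} (hx : Transcendental K x) (hxy : x ^ N + y ^ N = 1)
    (P : (K[X])[X]) (h : eval₂ (aeval x : K[X] →ₐ[K] L).toRingHom y P = 0) : FN K N ∣ P := by
  let _ : Algebra K[X] L := (aeval x : K[X] →ₐ[K] L).toRingHom.toAlgebra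
  have halg : ∀ f : K[X], algebraMap K[X] L f = aeval x f := fun f => rfl
  have hinj : Function.Injective (algebraMap K[X] L) := transcendental_iff_injective.1 hx
  have : FaithfulSMul K[X] L := (faithfulSMul_iff_algebraMap_injective K[X] L).2 hinj
  have hF : Polynomial.aeval y (FN K N) = 0 := by
    rw [FN, map_sub, map_pow, aeval_X, aeval_C, halg]
    simp only [map_sub, map_one, map_pow, aeval_X]
    linear_combination hxy
  have hint : IsIntegral K[X] y := ⟨FN K N, FN_monic hN, by rw [← aeval_def]; exact hF⟩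
  have h1 : minpoly K[X] y ∣ FN K N := minpoly.isIntegrallyClosed_dvd hint hF
  have h2 : minpoly K[X] y ∣ P := minpoly.isIntegrallyClosed_dvd hint (by rw [aeval_def]; exact h)
  have h3 : Associated (FN K N) (minpoly K[X] y) :=
    ((FN_irr hN).dvd_iff.1 h1).resolve_left (minpoly.not_isUnit _ _)
  exact h3.dvd_iff_dvd_left.2 h2

theorem nat_coords {ι κ : Type*} [Fintype κ] (s : Finset ι) (ρ : ι → κ → ℚ) :
    ∃ N : ℕ, N ≠ 0 ∧ ∃ (A : ℕ) (P : ι → κ → ℕ), ∀ i ∈ s, ∀ k, (P i k : ℚ) = N * ρ i k + A := by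
  classical
  set N : ℕ := ∏ i ∈ s, ∏ k, (ρ i k).den with hN
  have hN0 : N ≠ 0 := Finset.prod_ne_zero_iff.2 fun i _ =>
    Finset.prod_ne_zero_iff.2 fun k _ => (ρ i k).den_ne_zero
  have key : ∀ i ∈ s, ∀ k, ∃ z : ℤ, (z : ℚ) = N * ρ i k := by
    intro i hi k
    have h1 : (ρ i k).den ∣ N := (Finset.dvd_prod_of_mem (fun k => (ρ i k).den)
      (Finset.mem_univ k)).trans (Finset.dvd_prod_of_mem (fun i => ∏ k, (ρ i k).den) hi)
    obtain ⟨m, hm⟩ := h1
    refine ⟨m * (ρ i k).num, ?_⟩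
    rw [hm]
    push_cast
    have := Rat.den_mul_eq_num (ρ i k)
    linear_combination -(m : ℚ) * this
  have key' : ∀ i k, ∃ z : ℤ, i ∈ s → (z : ℚ) = N * ρ i k := by
    intro i k
    by_cases hi : i ∈ s
    · obtain ⟨z, hz⟩ := key i hi k
      exact ⟨z, fun _ => hz⟩
    · exact ⟨0, fun h => absurd h hi⟩
  choose z hz using key'
  set A : ℕ := ∑ i ∈ s, ∑ k, (z i k).natAbs with hA
  refine ⟨N, hN0, A, fun i k => (z i k + A).toNat, fun i hi k => ?_⟩
  have h1 : (z i k).natAbs ≤ A := (Finset.single_le_sum (f := fun k => (z i k).natAbs)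
    (fun _ _ => Nat.zero_le _) (Finset.mem_univ k)).trans
    (Finset.single_le_sum (f := fun i => ∑ k, (z i k).natAbs) (fun _ _ => Nat.zero_le _) hi)
  have h2 : ((z i k + A).toNat : ℤ) = z i k + A := Int.toNat_of_nonneg (by omega)
  have h3 : (((z i k + A).toNat : ℤ) : ℚ) = ((z i k + A : ℤ) : ℚ) := by rw [h2]
  push_cast at h3
  rw [h3, hz i k hi]

/-- the evaluation of the group algebra -/
noncomputable def ev {E : K × ℚ → L} (hE : ExpSys E) : AddMonoidAlgebra K (K × ℚ) →ₐ[K] L :=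
  AddMonoidAlgebra.lift K L (K × ℚ)
    { toFun := fun v => E v.toAdd
      map_one' := hE.zero
      map_mul' := fun _ _ => hE.add _ _ }

theorem ev_single {E : K × ℚ → L} (hE : ExpSys E) (w : K × ℚ) (c : K) :
    ev hE (AddMonoidAlgebra.single w c) = algebraMap K L c * E w := by
  rw [ev, AddMonoidAlgebra.lift_single, Algebra.smul_def]
  rfl

theorem dvd_plane [IsAlgClosed K] {E : K × ℚ → L} (hE : ExpSys E)
    (hT : ∀ v, v ≠ 0 → ¬ IsAlgebraic K (E v))
    {v : Fin 3 → K × ℚ} (hv : Function.Injective v) {c : Fin 3 → K} (hc : ∀ i, c i ≠ 0)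
    (hcv : ∑ i, algebraMap K L (c i) * E (v i) = 0)
    {ι : Type*} (s : Finset ι) (w : ι → K × ℚ) (g : ι → K)
    (hw : ∀ i ∈ s, ∃ r t : ℚ, w i = r • (v 1 - v 0) + t • (v 2 - v 0))
    (h0 : ∑ i ∈ s, algebraMap K L (g i) * E (w i) = 0) :
    (∑ i, AddMonoidAlgebra.single (v i) (c i)) ∣ ∑ i ∈ s, AddMonoidAlgebra.single (w i) (g i) := by
  classical
  set a := v 1 - v 0 with ha
  set b := v 2 - v 0 with hb
  have rel : algebraMap K L (c 0) + algebraMap K L (c 1) * E a + algebraMap K L (c 2) * E b = 0 := by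
    rw [Fin.sum_univ_three] at hcv
    rw [ha, hb, hE.sub, hE.sub]
    have := hE.ne (v 0)
    field_simp
    linear_combination hcv
  have hw' : ∀ i, ∃ r : Fin 2 → ℚ, i ∈ s → w i = r 0 • a + r 1 • b := by
    intro i
    by_cases hi : i ∈ s
    · obtain ⟨r, t, h⟩ := hw i hi
      exact ⟨![r, t], fun _ => by simpa using h⟩
    · exact ⟨0, fun h => absurd h hi⟩
  choose ρ hρ using hw'
  obtain ⟨N, hN, A, P, hP⟩ := nat_coords s ρ
  have hN' : (N : ℚ) ≠ 0 := by exact_mod_cast hN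
  set a₀ := (N : ℚ)⁻¹ • a with ha₀
  set b₀ := (N : ℚ)⁻¹ • b with hb₀
  set sh : K × ℚ := A • a₀ + A • b₀ with hsh
  have hNa : N • a₀ = a := by
    rw [ha₀, ← Nat.cast_smul_eq_nsmul ℚ, smul_smul, mul_inv_cancel₀ hN', one_smul]
  have hNb : N • b₀ = b := by
    rw [hb₀, ← Nat.cast_smul_eq_nsmul ℚ, smul_smul, mul_inv_cancel₀ hN', one_smul]
  have hwi : ∀ i ∈ s, P i 0 • a₀ + P i 1 • b₀ = w i + sh := by
    intro i hi
    have e : ∀ (k : Fin 2) (u : K × ℚ), P i k • ((N : ℚ)⁻¹ • u) = ρ i k • u + A • ((N : ℚ)⁻¹ • u) := by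
      intro k u
      rw [← Nat.cast_smul_eq_nsmul ℚ, ← Nat.cast_smul_eq_nsmul ℚ A, hP i hi k, add_smul, smul_smul]
      congr 2
      field_simp
    rw [ha₀, hb₀, e 0 a, e 1 b, hρ i hi, hsh, ha₀, hb₀]
    abel
  obtain ⟨γ, hγ⟩ := IsAlgClosed.exists_pow_nat_eq (-(c 1 / c 0)) (Nat.pos_of_ne_zero hN)
  obtain ⟨δ, hδ⟩ := IsAlgClosed.exists_pow_nat_eq (-(c 2 / c 0)) (Nat.pos_of_ne_zero hN)
  have hc0 := hc 0
  have hc1 := hc 1
  have hc2 := hc 2
  have hγ0 : γ ≠ 0 := by
    rintro rfl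
    rw [zero_pow hN] at hγ
    exact (neg_ne_zero.2 (div_ne_zero hc1 hc0)) hγ.symm
  have hδ0 : δ ≠ 0 := by
    rintro rfl
    rw [zero_pow hN] at hδ
    exact (neg_ne_zero.2 (div_ne_zero hc2 hc0)) hδ.symm
  have hc0' : algebraMap K L (c 0) ≠ 0 := by simpa using hc0
  have hxy : (algebraMap K L γ * E a₀) ^ N + (algebraMap K L δ * E b₀) ^ N = 1 := by
    rw [mul_pow, mul_pow, ← hE.nsmul, ← hE.nsmul, hNa, hNb, ← map_pow, ← map_pow, hγ, hδ]
    simp only [map_neg, map_div₀]
    field_simp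
    linear_combination -rel
  have ha0 : a₀ ≠ 0 := smul_ne_zero (inv_ne_zero hN') (sub_ne_zero.2 fun e => absurd (hv e) (by decide))
  have hx : Transcendental K (algebraMap K L γ * E a₀) := by
    intro halg
    apply hT a₀ ha0
    have h3 := (isAlgebraic_algebraMap (R := K) (A := L) γ⁻¹).mul halg
    rwa [← mul_assoc, ← map_mul, inv_mul_cancel₀ hγ0, map_one, one_mul] at h3
  -- the polynomial
  set G : (K[X])[X] := ∑ i ∈ s, C (C (g i * (γ ^ P i 0)⁻¹ * (δ ^ P i 1)⁻¹) * X ^ P i 0) * X ^ P i 1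
    with hG
  set φ : (K[X])[X] →+* AddMonoidAlgebra K (K × ℚ) :=
    eval₂RingHom (aeval (AddMonoidAlgebra.single a₀ γ) : K[X] →ₐ[K] AddMonoidAlgebra K (K × ℚ)).toRingHom
      (AddMonoidAlgebra.single b₀ δ) with hφ
  have hφG : φ G = (∑ i ∈ s, AddMonoidAlgebra.single (w i) (g i)) * AddMonoidAlgebra.single sh 1 := by
    rw [hG, map_sum, Finset.sum_mul]
    refine Finset.sum_congr rfl fun i hi => ?_
    rw [hφ, coe_eval₂RingHom, eval₂_mul, eval₂_C, eval₂_X_pow]
    change (aeval (AddMonoidAlgebra.single a₀ γ)) _ * _ = _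
    rw [map_mul, aeval_C, map_pow, aeval_X, AddMonoidAlgebra.single_pow, AddMonoidAlgebra.single_pow,
      AddMonoidAlgebra.single_mul_single, ← hwi i hi, mul_one]
    change AddMonoidAlgebra.single 0 _ * _ * _ = _
    rw [AddMonoidAlgebra.single_mul_single, AddMonoidAlgebra.single_mul_single, zero_add]
    congr 1
    have g1 := pow_ne_zero (P i 0) hγ0
    have g2 := pow_ne_zero (P i 1) hδ0
    simp only [Algebra.algebraMap_self, RingHom.id_apply]
    field_simp
  have hev : eval₂ (aeval (algebraMap K L γ * E a₀) : K[X] →ₐ[K] L).toRingHom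
      (algebraMap K L δ * E b₀) G = 0 := by
    have h1 : (ev hE).toRingHom (φ G) = eval₂ (aeval (algebraMap K L γ * E a₀) : K[X] →ₐ[K] L).toRingHom
        (algebraMap K L δ * E b₀) G := by
      rw [hφ, coe_eval₂RingHom, hom_eval₂]
      congr 1
      · apply Polynomial.ringHom_ext
        · intro r
          change ev hE (aeval _ (C r)) = aeval _ (C r)
          rw [aeval_C, aeval_C, AlgHom.commutes]
        · change ev hE (aeval _ X) = aeval _ X
          rw [aeval_X, aeval_X, ev_single]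
      · exact ev_single hE _ _
    rw [← h1, hφG]
    change ev hE _ = 0
    rw [map_mul, map_sum]
    simp only [ev_single]
    rw [h0, zero_mul]
  obtain ⟨H, hH⟩ := FN_dvd hN hx hxy G hev
  have h2 : φ (FN K N) * AddMonoidAlgebra.single (v 0) (-c 0) = ∑ i, AddMonoidAlgebra.single (v i) (c i) := by
    have e1 : φ (FN K N) = AddMonoidAlgebra.single b (-(c 2 / c 0)) -
        (AddMonoidAlgebra.single 0 1 - AddMonoidAlgebra.single a (-(c 1 / c 0))) := by
      rw [FN, hφ, coe_eval₂RingHom, eval₂_sub, eval₂_X_pow, eval₂_C]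
      change _ - aeval _ _ = _
      rw [map_sub, map_one, map_pow, aeval_X, AddMonoidAlgebra.single_pow,
        AddMonoidAlgebra.single_pow, hNa, hNb, hγ, hδ]
      rfl
    rw [e1, sub_mul, sub_mul, AddMonoidAlgebra.single_mul_single, AddMonoidAlgebra.single_mul_single,
      AddMonoidAlgebra.single_mul_single, Fin.sum_univ_three]
    have e2 : b + v 0 = v 2 := by rw [hb]; abel
    have e3 : a + v 0 = v 1 := by rw [ha]; abel
    have e4 : -(c 2 / c 0) * -c 0 = c 2 := by field_simp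
    have e5 : -(c 1 / c 0) * -c 0 = c 1 := by field_simp
    rw [e2, e3, e4, e5, zero_add, one_mul, AddMonoidAlgebra.single_neg]
    abel
  have h3 : AddMonoidAlgebra.single (v 0) (-c 0) * AddMonoidAlgebra.single (-v 0) (-(c 0)⁻¹) =
      (1 : AddMonoidAlgebra K (K × ℚ)) := by
    rw [AddMonoidAlgebra.single_mul_single, add_neg_cancel]
    have : -c 0 * -(c 0)⁻¹ = 1 := by field_simp
    rw [this]
    rfl
  have h4 : AddMonoidAlgebra.single sh 1 * AddMonoidAlgebra.single (-sh) 1 =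
      (1 : AddMonoidAlgebra K (K × ℚ)) := by
    rw [AddMonoidAlgebra.single_mul_single, add_neg_cancel, one_mul]
    rfl
  refine ⟨AddMonoidAlgebra.single (-v 0) (-(c 0)⁻¹) * φ H * AddMonoidAlgebra.single (-sh) 1, ?_⟩
  rw [← h2]
  calc ∑ i ∈ s, AddMonoidAlgebra.single (w i) (g i)
      = (∑ i ∈ s, AddMonoidAlgebra.single (w i) (g i)) *
          (AddMonoidAlgebra.single sh 1 * AddMonoidAlgebra.single (-sh) 1) := by rw [h4, mul_one]
    _ = φ G * AddMonoidAlgebra.single (-sh) 1 := by rw [hφG, mul_assoc]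
    _ = φ (FN K N) * φ H * AddMonoidAlgebra.single (-sh) 1 := by rw [hH, map_mul]
    _ = φ (FN K N) * (AddMonoidAlgebra.single (v 0) (-c 0) *
          AddMonoidAlgebra.single (-v 0) (-(c 0)⁻¹)) * φ H * AddMonoidAlgebra.single (-sh) 1 := by
        rw [h3, mul_one]
    _ = _ := by ring

end Run7.h84.TT
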