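import Pool.Agent.Run7.h84.TT.Fer

/-! Exponential systems of defect one: two planes of algebraic dependence coincide. -/

set_option autoImplicit false

namespace Run7.h84.TT

open AlgebraicIndependent

variable {K L : Type*} [Field K] [CharZero K] [Field L] [Algebra K L]

/-- an exponential map on `K × ℚ` which satisfies the theorem of Lindemann and Weierstrass on `K` -/
structure ExpSys (E : K × ℚ → L) : Prop where
  ne : ∀ v, E v ≠ 0
  add : ∀ v w, E (v + w) = E v * E w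
  ind : ∀ (n : ℕ) (z : Fin n → K), LinearIndependent ℚ z →
    AlgebraicIndependent K (fun i => E (z i, 0))

theorem ExpSys.zero {E : K × ℚ → L} (h : ExpSys E) : E 0 = 1 := by
  have h1 := h.add 0 0
  rw [add_zero] at h1
  exact (mul_eq_left₀ (h.ne 0)).1 h1.symm

theorem ExpSys.neg {E : K × ℚ → L} (h : ExpSys E) (v : K × ℚ) : E (-v) = (E v)⁻¹ := by
  have h1 := h.add v (-v)
  rw [add_neg_cancel, h.zero] at h1
  exact (inv_eq_of_mul_eq_one_right h1.symm).symm

theorem ExpSys.nsmul {E : K × ℚ → L} (h : ExpSys E) (v : K × ℚ) (n : ℕ) :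
    E (n • v) = E v ^ n := by
  induction n with
  | zero => rw [zero_smul, h.zero, pow_zero]
  | succ n ih => rw [succ_nsmul, h.add, ih, pow_succ]

theorem ExpSys.zsmul {E : K × ℚ → L} (h : ExpSys E) (v : K × ℚ) (n : ℤ) :
    E (n • v) = E v ^ n := by
  obtain ⟨m, rfl | rfl⟩ := n.eq_nat_or_neg
  · rw [natCast_zsmul, h.nsmul, zpow_natCast]
  · rw [neg_smul, natCast_zsmul, h.neg, h.nsmul, zpow_neg, zpow_natCast]

theorem ExpSys.sub {E : K × ℚ → L} (h : ExpSys E) (v w : K × ℚ) : E (v - w) = E v / E w := by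
  rw [sub_eq_add_neg, h.add, h.neg, div_eq_mul_inv]

theorem den_smul (r : ℚ) (v : K × ℚ) : r.den • (r • v) = r.num • v := by
  have h1 : ((r.den : ℚ) * r) = (r.num : ℚ) := Rat.den_mul_eq_num r
  rw [← Nat.cast_smul_eq_nsmul ℚ, smul_smul, h1, Int.cast_smul_eq_zsmul]

theorem mem_cl {T : Set L} {x : L} :
    x ∈ (matroid K L).closure T ↔ IsAlgebraic (Algebra.adjoin K T) x := by
  rw [matroid_closure_eq]
  rfl

/-- the vectors whose exponential is algebraic over the algebra generated by `T` -/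
def GG {E : K × ℚ → L} (hE : ExpSys E) (T : Set L) : Submodule ℚ (K × ℚ) where
  carrier := {v | E v ∈ (matroid K L).closure T}
  zero_mem' := by
    show E 0 ∈ (matroid K L).closure T
    rw [mem_cl, hE.zero]
    exact isAlgebraic_one
  add_mem' := by
    intro v w hv hw
    have hv' : IsAlgebraic (Algebra.adjoin K T) (E v) := mem_cl.1 hv
    have hw' : IsAlgebraic (Algebra.adjoin K T) (E w) := mem_cl.1 hw
    show E (v + w) ∈ (matroid K L).closure T
    rw [mem_cl, hE.add]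
    exact hv'.mul hw'
  smul_mem' := by
    intro r v hv
    have hv' : IsAlgebraic (Algebra.adjoin K T) (E v) := mem_cl.1 hv
    show E (r • v) ∈ (matroid K L).closure T
    rw [mem_cl]
    refine IsAlgebraic.of_pow r.den_pos ?_
    rw [← hE.nsmul, den_smul, hE.zsmul]
    obtain ⟨m, h | h⟩ := r.num.eq_nat_or_neg
    · rw [h, zpow_natCast]
      exact hv'.pow m
    · rw [h, zpow_neg, zpow_natCast]
      exact (hv'.pow m).inv

theorem mem_GG {E : K × ℚ → L} (hE : ExpSys E) {T : Set L} {v : K × ℚ} :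
    v ∈ GG hE T ↔ E v ∈ (matroid K L).closure T := Iff.rfl

theorem rank_le {E : K × ℚ → L} (hE : ExpSys E) {T : Set L} {n : ℕ} (z : Fin n → K)
    (hz : LinearIndependent ℚ z) (h : ∀ i, ((z i, 0) : K × ℚ) ∈ GG hE T) : (n : ℕ∞) ≤ T.encard := by
  have hI := hE.ind n z hz
  have hs : (matroid K L).Indep (Set.range fun i => E (z i, 0)) := hI.coe_range
  have hc : (n : ℕ∞) ≤ (Set.range fun i => E (z i, 0)).encard := by
    refine le_trans ?_ hI.injective.encard_range
    simp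
  refine hc.trans ?_
  refine (hs.encard_le_eRk_of_subset (X := (matroid K L).closure T) ?_).trans ?_
  · rintro _ ⟨i, rfl⟩
    exact h i
  · rw [Matroid.eRk_closure_eq]
    exact Matroid.eRk_le_encard _ _

theorem exchange {E : K × ℚ → L} (hE : ExpSys E) {x : L} {h : K × ℚ}
    (h1 : h ∈ GG hE {x}) (h0 : h ∉ GG hE (∅ : Set L)) : GG hE {x} = GG hE {E h} := by
  have e1 : E h ∈ (matroid K L).closure {x} := h1
  have e0 : E h ∉ (matroid K L).closure ∅ := h0
  have e2 : x ∈ (matroid K L).closure {E h} := by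
    have := Matroid.mem_closure_insert (M := matroid K L) (X := ∅) (e := E h) (f := x) e0
      (by rw [insert_empty_eq]; exact e1)
    rwa [insert_empty_eq] at this
  have e3 : (matroid K L).closure {x} = (matroid K L).closure {E h} := by
    apply subset_antisymm
    · exact Matroid.closure_subset_closure_of_subset_closure (Set.singleton_subset_iff.2 e2)
    · exact Matroid.closure_subset_closure_of_subset_closure (Set.singleton_subset_iff.2 e1)
  ext v
  rw [mem_GG, mem_GG, e3]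

theorem GG_mono {E : K × ℚ → L} (hE : ExpSys E) {T T' : Set L} (h : T ⊆ T') :
    GG hE T ≤ GG hE T' := fun _ hv => Matroid.closure_subset_closure _ h hv

/-- normal form of a plane -/
theorem plane {E : K × ℚ → L} (hE : ExpSys E) {x : L} {a b : K × ℚ} (ha : a ∈ GG hE {x})
    (hb : b ∈ GG hE {x}) (hab : ∀ r s : ℚ, r • a + s • b = 0 → r = 0 ∧ s = 0) :
    ∃ (p : K × ℚ) (κ : K), p ∈ GG hE {x} ∧ p.2 = 1 ∧ κ ≠ 0 ∧ ((κ, 0) : K × ℚ) ∈ GG hE {x} ∧
      (∃ r s : ℚ, p = r • a + s • b) ∧ (∃ r s : ℚ, ((κ, 0) : K × ℚ) = r • a + s • b) ∧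
      ∀ v ∈ GG hE {x}, ∃ r : ℚ, v = v.2 • p + r • ((κ, 0) : K × ℚ) := by
  have R2 : ∀ κ₁ κ₂ : K, ((κ₁, 0) : K × ℚ) ∈ GG hE {x} → ((κ₂, 0) : K × ℚ) ∈ GG hE {x} →
      ∃ r s : ℚ, ¬ (r = 0 ∧ s = 0) ∧ r • κ₁ + s • κ₂ = 0 := by
    intro κ₁ κ₂ h1 h2
    by_contra hcon
    push Not at hcon
    have hli : LinearIndependent ℚ ![κ₁, κ₂] := by
      rw [LinearIndependent.pair_iff]
      intro r s hrs
      by_contra hne
      exact hcon r s (fun hr hs => hne ⟨hr, hs⟩) hrs
    have := rank_le hE (T := {x}) _ hli (fun i => by fin_cases i <;> simpa)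
    rw [Set.encard_singleton] at this
    exact absurd this (by decide)
  -- choose the vector with a nonzero second coordinate
  have key : ∀ a b : K × ℚ, a ∈ GG hE {x} → b ∈ GG hE {x} →
      (∀ r s : ℚ, r • a + s • b = 0 → r = 0 ∧ s = 0) → a.2 ≠ 0 →
      ∃ (p : K × ℚ) (κ : K), p ∈ GG hE {x} ∧ p.2 = 1 ∧ κ ≠ 0 ∧ ((κ, 0) : K × ℚ) ∈ GG hE {x} ∧
        (∃ r s : ℚ, p = r • a + s • b) ∧ (∃ r s : ℚ, ((κ, 0) : K × ℚ) = r • a + s • b) ∧
        ∀ v ∈ GG hE {x}, ∃ r : ℚ, v = v.2 • p + r • ((κ, 0) : K × ℚ) := by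
    intro a b ha hb hab ha2
    set p : K × ℚ := a.2⁻¹ • a with hp
    have hpG : p ∈ GG hE {x} := (GG hE {x}).smul_mem _ ha
    have hp2 : p.2 = 1 := by simp [hp, ha2]
    set κ : K := (b - b.2 • p).1 with hκ
    have hκe : ((κ, 0) : K × ℚ) = b - b.2 • p := by
      apply Prod.ext
      · rfl
      · simp [hp2]
    have hκG : ((κ, 0) : K × ℚ) ∈ GG hE {x} := by
      rw [hκe]
      exact (GG hE {x}).sub_mem hb ((GG hE {x}).smul_mem _ hpG)
    have hκab : ((κ, 0) : K × ℚ) = (-(b.2 * a.2⁻¹)) • a + (1 : ℚ) • b := by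
      rw [hκe, hp, smul_smul, one_smul, neg_smul]
      abel
    have hκ0 : κ ≠ 0 := by
      intro h0
      have : (-(b.2 * a.2⁻¹)) • a + (1 : ℚ) • b = 0 := by rw [← hκab, h0]; rfl
      exact one_ne_zero (hab _ _ this).2
    refine ⟨p, κ, hpG, hp2, hκ0, hκG, ⟨a.2⁻¹, 0, by rw [hp, zero_smul, add_zero]⟩,
      ⟨_, _, hκab⟩, ?_⟩
    intro v hv
    have hw : ((((v - v.2 • p).1), 0) : K × ℚ) = v - v.2 • p := by
      apply Prod.ext
      · rfl
      · simp [hp2]
    have hwG : ((((v - v.2 • p).1), 0) : K × ℚ) ∈ GG hE {x} := by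
      rw [hw]
      exact (GG hE {x}).sub_mem hv ((GG hE {x}).smul_mem _ hpG)
    obtain ⟨r, s, hne, hrs⟩ := R2 κ _ hκG hwG
    have hs : s ≠ 0 := by
      intro hs
      rw [hs, zero_smul, add_zero] at hrs
      exact hne ⟨(smul_eq_zero.1 hrs).resolve_right hκ0, hs⟩
    refine ⟨-(s⁻¹ * r), ?_⟩
    have e1 : (v - v.2 • p).1 = (-(s⁻¹ * r)) • κ := by
      have h1 := congrArg (fun t => s⁻¹ • t) hrs
      simp only [smul_add, smul_smul, inv_mul_cancel₀ hs, one_smul, smul_zero] at h1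
      rw [neg_smul]
      exact eq_neg_of_add_eq_zero_right h1
    have e2 : v - v.2 • p = (-(s⁻¹ * r)) • ((κ, 0) : K × ℚ) := by
      rw [← hw, e1]
      simp
    rw [← e2]
    abel
  by_cases ha2 : a.2 = 0
  · by_cases hb2 : b.2 = 0
    · exfalso
      have ea : ((a.1, 0) : K × ℚ) = a := Prod.ext rfl ha2.symm
      have eb : ((b.1, 0) : K × ℚ) = b := Prod.ext rfl hb2.symm
      obtain ⟨r, s, hne, hrs⟩ := R2 a.1 b.1 (by rw [ea]; exact ha) (by rw [eb]; exact hb)
      refine hne (hab r s ?_)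
      apply Prod.ext
      · simpa using hrs
      · simp [ha2, hb2]
    · obtain ⟨p, κ, h1, h2, h3, h4, ⟨r, s, h5⟩, ⟨r', s', h6⟩, h7⟩ := key b a hb ha
        (fun r s hrs => (hab s r (by rw [add_comm]; exact hrs)).symm) hb2
      exact ⟨p, κ, h1, h2, h3, h4, ⟨s, r, by rw [h5, add_comm]⟩, ⟨s', r', by rw [h6, add_comm]⟩, h7⟩
  · exact key a b ha hb hab ha2

/-- two planes coincide -/
theorem planes {E : K × ℚ → L} (hE : ExpSys E) (hT : ∀ v, v ≠ 0 → v ∉ GG hE (∅ : Set L))
    {x x' : L} {a b a' b' : K × ℚ} (ha : a ∈ GG hE {x}) (hb : b ∈ GG hE {x})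
    (hab : ∀ r s : ℚ, r • a + s • b = 0 → r = 0 ∧ s = 0)
    (ha' : a' ∈ GG hE {x'}) (hb' : b' ∈ GG hE {x'})
    (hab' : ∀ r s : ℚ, r • a' + s • b' = 0 → r = 0 ∧ s = 0) :
    ∀ v ∈ GG hE {x'}, ∃ r s : ℚ, v = r • a + s • b := by
  obtain ⟨p, κ, h1, h2, h3, h4, ⟨r1, s1, h5⟩, ⟨r2, s2, h6⟩, h7⟩ := plane hE ha hb hab
  obtain ⟨p', κ', h1', h2', h3', h4', -, -, h7'⟩ := plane hE ha' hb' hab'
  have hδ : (((p - p').1, 0) : K × ℚ) = p - p' := by
    apply Prod.ext
    · rfl
    · simp [h2, h2']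
  -- a nonzero common vector
  obtain ⟨h, hh0, hhx, hhx'⟩ : ∃ h : K × ℚ, h ≠ 0 ∧ h ∈ GG hE {x} ∧ h ∈ GG hE {x'} := by
    by_contra hcon
    have hcon' : ∀ h : K × ℚ, h ∈ GG hE {x} → h ∈ GG hE {x'} → h = 0 := fun h g1 g2 => by
      by_contra g0
      exact hcon ⟨h, g0, g1, g2⟩
    have hli : LinearIndependent ℚ ![κ, κ', (p - p').1] := by
      rw [Fintype.linearIndependent_iff]
      intro g hg
      rw [Fin.sum_univ_three] at hg
      simp only [Matrix.cons_val_zero, Matrix.cons_val_one, Matrix.cons_val] at hg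
      have e1 : g 0 • ((κ, 0) : K × ℚ) + g 2 • p = g 2 • p' - g 1 • ((κ', 0) : K × ℚ) := by
        have : g 0 • ((κ, 0) : K × ℚ) + g 1 • ((κ', 0) : K × ℚ) + g 2 • (p - p') = 0 := by
          rw [← hδ]
          apply Prod.ext
          · simpa using hg
          · simp
        rw [smul_sub] at this
        rw [eq_sub_iff_add_eq, ← sub_eq_zero, ← this]
        abel
      have m1 : g 0 • ((κ, 0) : K × ℚ) + g 2 • p ∈ GG hE {x} :=
        (GG hE {x}).add_mem ((GG hE {x}).smul_mem _ h4) ((GG hE {x}).smul_mem _ h1)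
      have m2 : g 0 • ((κ, 0) : K × ℚ) + g 2 • p ∈ GG hE {x'} := by
        rw [e1]
        exact (GG hE {x'}).sub_mem ((GG hE {x'}).smul_mem _ h1') ((GG hE {x'}).smul_mem _ h4')
      have m3 := hcon' _ m1 m2
      have m4 : g 2 = 0 := by
        have := congrArg Prod.snd m3
        simpa [h2] using this
      have m5 : g 0 = 0 := by
        have := congrArg Prod.fst m3
        rw [m4] at this
        simpa [h3] using this
      have m6 : g 1 = 0 := by
        rw [m3, m4, zero_smul, zero_sub] at e1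
        have := congrArg Prod.fst e1
        simpa [h3'] using this
      intro i
      fin_cases i
      · exact m5
      · exact m6
      · exact m4
    have := rank_le hE (T := {x, x'}) _ hli (fun i => by
      have s1 : ({x} : Set L) ⊆ {x, x'} := by simp
      have s2 : ({x'} : Set L) ⊆ {x, x'} := by simp
      fin_cases i
      · exact GG_mono hE s1 h4
      · exact GG_mono hE s2 h4'
      · show (((p - p').1, 0) : K × ℚ) ∈ _
        rw [hδ]
        exact (GG hE {x, x'}).sub_mem (GG_mono hE s1 h1) (GG_mono hE s2 h1'))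
    have h8 : ({x, x'} : Set L).encard ≤ 2 := by
      refine (Set.encard_insert_le _ _).trans ?_
      rw [Set.encard_singleton]
      exact le_of_eq (by norm_num)
    exact absurd (this.trans h8) (by decide)
  have e1 := exchange hE hhx (hT h hh0)
  have e2 := exchange hE hhx' (hT h hh0)
  intro v hv
  rw [e2, ← e1] at hv
  obtain ⟨r, hr⟩ := h7 v hv
  refine ⟨v.2 * r1 + r * r2, v.2 * s1 + r * s2, ?_⟩
  calc v = v.2 • p + r • ((κ, 0) : K × ℚ) := hr
    _ = v.2 • (r1 • a + s1 • b) + r • (r2 • a + s2 • b) := by rw [h6, h5]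
    _ = _ := by module

end Run7.h84.TT
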