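import Mathlib

/-! Three-term identities between monomials in `u` and `1 - u`, and in the coordinates of the
Fermat curve. -/

set_option autoImplicit false

namespace Run7.h84.TT

open Polynomial

variable {K : Type*} [Field K] [CharZero K]

theorem base {d₀ d₁ d₂ : K} (h₁ : d₁ ≠ 0) (h₂ : d₂ ≠ 0) {m k : ℕ} (hm : m ≠ 0)
    (hk : k ≠ 0) (h : C d₀ + C d₁ * (1 - X) ^ k + C d₂ * X ^ m = (0 : K[X])) :
    k = 1 ∧ m = 1 ∧ d₁ = -d₀ ∧ d₂ = -d₀ := by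
  have e0 := congrArg (eval 0) h
  have e1 := congrArg (eval 1) h
  have hd := congrArg derivative h
  have f0 := congrArg (eval 0) hd
  have f1 := congrArg (eval 1) hd
  simp [hm, hk, derivative_pow] at e0 e1 f0 f1
  have hk' : (k : K) ≠ 0 := Nat.cast_ne_zero.2 hk
  have hm' : (m : K) ≠ 0 := Nat.cast_ne_zero.2 hm
  refine ⟨?_, ?_, by linear_combination e0, by linear_combination e1⟩
  · by_contra hk1
    have : k - 1 ≠ 0 := by omega
    simp [this, h₂, hm] at f1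
  · by_contra hm1
    have : m - 1 ≠ 0 := by omega
    simp [this, h₁, hk] at f0

theorem base2 {d₀ d₁ d₂ : K} (h₁ : d₁ ≠ 0) (h₂ : d₂ ≠ 0) (h₀ : d₀ ≠ 0) {m₁ k₁ m₂ k₂ : ℕ}
    (n₁ : ¬ (m₁ = 0 ∧ k₁ = 0)) (n₂ : ¬ (m₂ = 0 ∧ k₂ = 0))
    (h : C d₀ + C d₁ * (X ^ m₁ * (1 - X) ^ k₁) + C d₂ * (X ^ m₂ * (1 - X) ^ k₂) = (0 : K[X])) :
    ((m₁ = 1 ∧ k₁ = 0 ∧ m₂ = 0 ∧ k₂ = 1) ∨ (m₁ = 0 ∧ k₁ = 1 ∧ m₂ = 1 ∧ k₂ = 0)) ∧
      d₁ = -d₀ ∧ d₂ = -d₀ := by
  have e0 := congrArg (eval 0) h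
  have e1 := congrArg (eval 1) h
  simp at e0 e1
  by_cases a1 : m₁ = 0
  · have b1 : k₁ ≠ 0 := fun hh => n₁ ⟨a1, hh⟩
    have b2 : k₂ = 0 := by
      by_contra b2
      simp [b1, b2] at e1
      exact h₀ e1
    have a2 : m₂ ≠ 0 := fun hh => n₂ ⟨hh, b2⟩
    subst a1 b2
    have := base (m := m₂) (k := k₁) h₁ h₂ a2 b1 (by simpa using h)
    exact ⟨Or.inr ⟨rfl, this.1, this.2.1, rfl⟩, this.2.2.1, this.2.2.2⟩
  · have a2 : m₂ = 0 := by
      by_contra a2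
      simp [a1, a2] at e0
      exact h₀ e0
    have b2 : k₂ ≠ 0 := fun hh => n₂ ⟨a2, hh⟩
    have b1 : k₁ = 0 := by
      by_contra b1
      simp [b1, b2] at e1
      exact h₀ e1
    subst a2 b1
    have := base (d₀ := d₀) (m := m₁) (k := k₂) h₂ h₁ a1 b2 (by
      have : C d₀ + C d₁ * (X ^ m₁ * (1 - X) ^ 0) + C d₂ * (X ^ 0 * (1 - X) ^ k₂) = (0 : K[X]) := h
      rw [pow_zero, pow_zero, mul_one, one_mul] at this
      linear_combination this)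
    exact ⟨Or.inl ⟨this.2.1, rfl, rfl, this.1⟩, this.2.2.2, this.2.2.1⟩

omit [CharZero K] in
theorem pick {D : Fin 3 → K} (hD : ∀ i, D i ≠ 0) {m k : Fin 3 → ℕ} (hm : ∃ i, m i = 0)
    (hk : ∃ i, k i = 0) (h0 : ∑ i, D i * 0 ^ (m i) = 0) (h1 : ∑ i, D i * 0 ^ (k i) = 0) :
    ∃ i, m i = 0 ∧ k i = 0 := by
  by_contra hcon
  have hc : ∀ i, ¬ (m i = 0 ∧ k i = 0) := fun i hi => hcon ⟨i, hi⟩
  have c0 := hc 0
  have c1 := hc 1
  have c2 := hc 2
  have d0 := hD 0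
  have d1 := hD 1
  have d2 := hD 2
  rw [Fin.sum_univ_three] at h0 h1
  have hm' : m 0 = 0 ∨ m 1 = 0 ∨ m 2 = 0 := by
    obtain ⟨i, hi⟩ := hm
    fin_cases i
    · exact Or.inl hi
    · exact Or.inr (Or.inl hi)
    · exact Or.inr (Or.inr hi)
  have hk' : k 0 = 0 ∨ k 1 = 0 ∨ k 2 = 0 := by
    obtain ⟨i, hi⟩ := hk
    fin_cases i
    · exact Or.inl hi
    · exact Or.inr (Or.inl hi)
    · exact Or.inr (Or.inr hi)
  by_cases a0 : m 0 = 0 <;> by_cases a1 : m 1 = 0 <;> by_cases a2 : m 2 = 0 <;>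
    by_cases b0 : k 0 = 0 <;> by_cases b1 : k 1 = 0 <;> by_cases b2 : k 2 = 0 <;>
    simp_all

/-- the unit triangle -/
def tm : Fin 3 → ℤ := ![0, 1, 0]
/-- the unit triangle -/
def tk : Fin 3 → ℤ := ![0, 0, 1]
/-- the coefficients of `1 - u - (1 - u)` -/
def tc : Fin 3 → ℤ := ![1, -1, -1]

theorem triNat {D : Fin 3 → K} (hD : ∀ i, D i ≠ 0) {m k : Fin 3 → ℕ} (hm : ∃ i, m i = 0)
    (hk : ∃ i, k i = 0) (hinj : ∀ i j, m i = m j → k i = k j → i = j)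
    (h : ∑ i, C (D i) * (X ^ m i * (1 - X) ^ k i) = (0 : K[X])) :
    ∃ σ : Equiv.Perm (Fin 3), ∃ μ : K, ∀ i, (m (σ i) : ℤ) = tm i ∧ (k (σ i) : ℤ) = tk i ∧
      D (σ i) = μ * tc i := by
  have e0 := congrArg (eval 0) h
  have e1 := congrArg (eval 1) h
  rw [eval_finsetSum] at e0 e1
  simp only [eval_mul, eval_C, eval_pow, eval_X, eval_sub, eval_one, sub_zero, one_pow, mul_one,
    sub_self, one_mul, eval_zero] at e0 e1
  obtain ⟨i, hmi, hki⟩ := pick hD hm hk e0 e1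
  have h' : ∑ j, C (D (Equiv.swap 0 i j)) * (X ^ m (Equiv.swap 0 i j) *
      (1 - X) ^ k (Equiv.swap 0 i j)) = (0 : K[X]) := by
    rw [← h]
    exact Equiv.sum_comp (Equiv.swap 0 i) (fun j => C (D j) * (X ^ m j * (1 - X) ^ k j))
  set τ := Equiv.swap 0 i with hτ
  have t0 : τ 0 = i := Equiv.swap_apply_left 0 i
  rw [Fin.sum_univ_three, t0, hmi, hki, pow_zero, pow_zero, mul_one, mul_one] at h'
  have n1 : ¬ (m (τ 1) = 0 ∧ k (τ 1) = 0) := fun ⟨x, y⟩ => by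
    have := hinj (τ 1) (τ 0) (by rw [t0, x, hmi]) (by rw [t0, y, hki])
    exact absurd (τ.injective this) (by decide)
  have n2 : ¬ (m (τ 2) = 0 ∧ k (τ 2) = 0) := fun ⟨x, y⟩ => by
    have := hinj (τ 2) (τ 0) (by rw [t0, x, hmi]) (by rw [t0, y, hki])
    exact absurd (τ.injective this) (by decide)
  obtain ⟨hor, q1, q2⟩ := base2 (hD _) (hD _) (hD _) n1 n2 h'
  rcases hor with ⟨x1, x2, x3, x4⟩ | ⟨x1, x2, x3, x4⟩
  · refine ⟨τ, D i, fun j => ?_⟩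
    fin_cases j
    · simp [tm, tk, tc, t0, hmi, hki]
    · simp [tm, tk, tc, x1, x2, q1]
    · simp [tm, tk, tc, x3, x4, q2]
  · refine ⟨(Equiv.swap 1 2).trans τ, D i, fun j => ?_⟩
    fin_cases j
    · have : (Equiv.swap (1 : Fin 3) 2) 0 = 0 := by decide
      simp [tm, tk, tc, this, t0, hmi, hki]
    · have : (Equiv.swap (1 : Fin 3) 2) 1 = 2 := by decide
      simp [tm, tk, tc, this, x3, x4, q2]
    · have : (Equiv.swap (1 : Fin 3) 2) 2 = 1 := by decide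
      simp [tm, tk, tc, this, x1, x2, q1]

variable {L : Type*} [Field L] [Algebra K L]

theorem triInt {u : L} (hu : Transcendental K u) {D : Fin 3 → K} (hD : ∀ i, D i ≠ 0)
    {m k : Fin 3 → ℤ} (hinj : ∀ i j, m i = m j → k i = k j → i = j)
    (h : ∑ i, algebraMap K L (D i) * (u ^ m i * (1 - u) ^ k i) = 0) :
    ∃ σ : Equiv.Perm (Fin 3), ∃ μ : K, ∃ m₀ k₀ : ℤ, ∀ i, m (σ i) = m₀ + tm i ∧
      k (σ i) = k₀ + tk i ∧ D (σ i) = μ * tc i := by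
  have hu0 : u ≠ 0 := fun e => hu (e ▸ isAlgebraic_zero)
  have hu1 : 1 - u ≠ 0 := fun e => hu (by
    rw [show u = 1 by linear_combination -e]; exact isAlgebraic_one)
  obtain ⟨i₀, -, hi₀⟩ := Finset.exists_min_image Finset.univ m ⟨0, Finset.mem_univ _⟩
  obtain ⟨j₀, -, hj₀⟩ := Finset.exists_min_image Finset.univ k ⟨0, Finset.mem_univ _⟩
  have hm : ∀ i, ((m i - m i₀).toNat : ℤ) = m i - m i₀ := fun i =>
    Int.toNat_of_nonneg (sub_nonneg.2 (hi₀ i (Finset.mem_univ _)))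
  have hk : ∀ i, ((k i - k j₀).toNat : ℤ) = k i - k j₀ := fun i =>
    Int.toNat_of_nonneg (sub_nonneg.2 (hj₀ i (Finset.mem_univ _)))
  have hP : ∑ i, C (D i) * (X ^ (m i - m i₀).toNat * (1 - X) ^ (k i - k j₀).toNat) = (0 : K[X]) := by
    by_contra hP
    apply hu
    refine ⟨_, hP, ?_⟩
    rw [map_sum]
    have : ∀ i, aeval u (C (D i) * (X ^ (m i - m i₀).toNat * (1 - X) ^ (k i - k j₀).toNat)) =
        (algebraMap K L (D i) * (u ^ m i * (1 - u) ^ k i)) * (u ^ (-m i₀) * (1 - u) ^ (-k j₀)) := by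
      intro i
      simp only [map_mul, map_pow, aeval_C, aeval_X, map_sub, map_one]
      rw [← zpow_natCast, ← zpow_natCast, hm, hk, sub_eq_add_neg (m i), sub_eq_add_neg (k i),
        zpow_add₀ hu0, zpow_add₀ hu1]
      ring
    rw [Finset.sum_congr rfl (fun i _ => this i), ← Finset.sum_mul, h, zero_mul]
  obtain ⟨σ, μ, hσ⟩ := triNat (m := fun i => (m i - m i₀).toNat)
    (k := fun i => (k i - k j₀).toNat) hD ⟨i₀, by simp⟩ ⟨j₀, by simp⟩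
    (fun i j e1 e2 => hinj i j (by
      have h1 := hm i
      have h2 := hm j
      rw [e1, h2] at h1
      omega) (by
      have h1 := hk i
      have h2 := hk j
      rw [e2, h2] at h1
      omega)) hP
  refine ⟨σ, μ, m i₀, k j₀, fun i => ?_⟩
  obtain ⟨h1, h2, h3⟩ := hσ i
  simp only [hm, hk] at h1 h2
  exact ⟨by linarith, by linarith, h3⟩

end Run7.h84.TT
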