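import Pool.Agent.Run7.h84.TT.Rank

/-! At most one non-collinear three-term relation. -/

set_option autoImplicit false

namespace Run7.h84.TT

open AlgebraicIndependent Polynomial

variable {K L : Type*} [Field K] [CharZero K] [Field L] [Algebra K L]

theorem not_mem_empty {E : K × ℚ → L} (hE : ExpSys E)
    (hT : ∀ v, v ≠ 0 → ¬ IsAlgebraic K (E v)) : ∀ v, v ≠ 0 → v ∉ GG hE (∅ : Set L) := by
  intro v hv hmem
  have h1 := mem_cl.1 ((mem_GG hE).1 hmem)
  apply hT v hv
  rw [Algebra.adjoin_empty] at h1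
  exact Subalgebra.isAlgebraic_of_isAlgebraic_bot h1

theorem self_mem {E : K × ℚ → L} (hE : ExpSys E) (a : K × ℚ) : a ∈ GG hE {E a} :=
  (mem_GG hE).2 (mem_cl.2 (isAlgebraic_algebraMap
    (⟨E a, Algebra.subset_adjoin (Set.mem_singleton _)⟩ : Algebra.adjoin K {E a})))

theorem third_mem {E : K × ℚ → L} (hE : ExpSys E) (a b : K × ℚ) {c₀ c₁ c₂ : K} (h2 : c₂ ≠ 0)
    (h : algebraMap K L c₀ + algebraMap K L c₁ * E a + algebraMap K L c₂ * E b = 0) :
    b ∈ GG hE {E a} := by
  have h2' : algebraMap K L c₂ ≠ 0 := by simpa using h2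
  have e : E b = algebraMap K L (-(c₀ / c₂)) + algebraMap K L (-(c₁ / c₂)) * E a := by
    simp only [map_neg, map_div₀]
    field_simp
    linear_combination h
  have hm : E b ∈ Algebra.adjoin K {E a} := by
    rw [e]
    exact add_mem (Subalgebra.algebraMap_mem _ _) (mul_mem (Subalgebra.algebraMap_mem _ _)
      (Algebra.subset_adjoin (Set.mem_singleton _)))
  exact (mem_GG hE).2 (mem_cl.2 (isAlgebraic_algebraMap (⟨E b, hm⟩ : Algebra.adjoin K {E a})))

/-- two-term relations are impossible -/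
theorem two {E : K × ℚ → L} (hE : ExpSys E) (hT : ∀ v, v ≠ 0 → ¬ IsAlgebraic K (E v))
    {v w : K × ℚ} (hvw : v ≠ w) {c d : K}
    (h : algebraMap K L c * E v + algebraMap K L d * E w = 0) : c = 0 ∧ d = 0 := by
  have key : ∀ v w : K × ℚ, v ≠ w → ∀ c d : K,
      algebraMap K L c * E v + algebraMap K L d * E w = 0 → c = 0 := by
    intro v w hvw c d h
    by_contra hc
    have hc' : algebraMap K L c ≠ 0 := by simpa using hc
    apply hT (v - w) (sub_ne_zero.2 hvw)
    have : E (v - w) = algebraMap K L (-(d / c)) := by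
      rw [hE.sub, div_eq_iff (hE.ne w)]
      simp only [map_neg, map_div₀]
      field_simp
      linear_combination h
    rw [this]
    exact isAlgebraic_algebraMap _
  exact ⟨key v w hvw c d h, key w v hvw.symm d c (by rw [add_comm]; exact h)⟩

theorem all_ne {E : K × ℚ → L} (hE : ExpSys E) (hT : ∀ v, v ≠ 0 → ¬ IsAlgebraic K (E v))
    {w : Fin 3 → K × ℚ} (hw : Function.Injective w) {d : Fin 3 → K} (hd : d ≠ 0)
    (h : ∑ i, algebraMap K L (d i) * E (w i) = 0) : ∀ i, d i ≠ 0 := by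
  rw [Fin.sum_univ_three] at h
  intro i hi
  apply hd
  have n01 : w 0 ≠ w 1 := fun e => absurd (hw e) (by decide)
  have n02 : w 0 ≠ w 2 := fun e => absurd (hw e) (by decide)
  have n12 : w 1 ≠ w 2 := fun e => absurd (hw e) (by decide)
  fin_cases i
  · have hi' : d 0 = 0 := hi
    rw [hi', map_zero, zero_mul, zero_add] at h
    have := two hE hT n12 h
    ext j
    fin_cases j
    · exact hi'
    · exact this.1
    · exact this.2
  · have hi' : d 1 = 0 := hi
    rw [hi', map_zero, zero_mul, add_zero] at h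
    have := two hE hT n02 h
    ext j
    fin_cases j
    · exact this.1
    · exact hi'
    · exact this.2
  · have hi' : d 2 = 0 := hi
    rw [hi', map_zero, zero_mul, add_zero] at h
    have := two hE hT n01 h
    ext j
    fin_cases j
    · exact this.1
    · exact this.2
    · exact hi'

theorem noncollinear {E : K × ℚ → L} (hE : ExpSys E) (hT : ∀ v, v ≠ 0 → ¬ IsAlgebraic K (E v))
    {w : Fin 3 → K × ℚ} (hw : Function.Injective w) {d : Fin 3 → K} (hd : ∀ i, d i ≠ 0)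
    (h : ∑ i, algebraMap K L (d i) * E (w i) = 0) :
    ∀ r s : ℚ, r • (w 1 - w 0) + s • (w 2 - w 0) = 0 → r = 0 ∧ s = 0 := by
  intro r s hrs
  have n1 : w 1 - w 0 ≠ 0 := sub_ne_zero.2 fun e => absurd (hw e) (by decide)
  have n2 : w 2 - w 0 ≠ 0 := sub_ne_zero.2 fun e => absurd (hw e) (by decide)
  have n12 : w 1 ≠ w 2 := fun e => absurd (hw e) (by decide)
  by_cases hr : r = 0
  · refine ⟨hr, ?_⟩
    rw [hr, zero_smul, zero_add] at hrs
    exact (smul_eq_zero.1 hrs).resolve_right n2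
  by_cases hs : s = 0
  · refine ⟨?_, hs⟩
    rw [hs, zero_smul, add_zero] at hrs
    exact (smul_eq_zero.1 hrs).resolve_right n1
  exfalso
  obtain ⟨q, hq⟩ : ∃ q : ℚ, w 2 - w 0 = q • (w 1 - w 0) := by
    refine ⟨-(s⁻¹ * r), ?_⟩
    have h1 := congrArg (fun t => s⁻¹ • t) hrs
    simp only [smul_add, smul_smul, inv_mul_cancel₀ hs, one_smul, smul_zero] at h1
    rw [neg_smul]
    exact eq_neg_of_add_eq_zero_right h1
  set k : K × ℚ := (q.den : ℚ)⁻¹ • (w 1 - w 0) with hk
  have hden : (q.den : ℚ) ≠ 0 := by exact_mod_cast q.den_ne_zero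
  have hk0 : k ≠ 0 := smul_ne_zero (inv_ne_zero hden) n1
  have e1 : w 1 - w 0 = (q.den : ℤ) • k := by
    rw [hk, ← Int.cast_smul_eq_zsmul ℚ, smul_smul]
    push_cast
    rw [mul_inv_cancel₀ hden, one_smul]
  have e2 : w 2 - w 0 = q.num • k := by
    rw [hq, hk, ← Int.cast_smul_eq_zsmul ℚ, smul_smul]
    congr 1
    rw [← div_eq_mul_inv]
    exact (Rat.num_div_den q).symm
  -- the exponents
  set e : Fin 3 → ℤ := ![0, (q.den : ℤ), q.num] with he
  have hwe : ∀ i, w i - w 0 = e i • k := by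
    intro i
    fin_cases i
    · simp [he]
    · simpa [he] using e1
    · simpa [he] using e2
  have heinj : Function.Injective e := by
    intro i j hij
    apply hw
    have h1 : w i - w 0 = w j - w 0 := by rw [hwe, hwe, hij]
    exact sub_left_injective h1
  obtain ⟨A, hA⟩ : ∃ A : ℕ, ∀ i, 0 ≤ e i + A := by
    refine ⟨∑ i, (e i).natAbs, fun i => ?_⟩
    have h1 : (e i).natAbs ≤ ∑ i, (e i).natAbs :=
      Finset.single_le_sum (f := fun i => (e i).natAbs) (fun _ _ => Nat.zero_le _)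
        (Finset.mem_univ i)
    have h3 : ((e i).natAbs : ℤ) ≤ (∑ i, (e i).natAbs : ℕ) := by exact_mod_cast h1
    omega
  have hp : ∀ i, ((e i + A).toNat : ℤ) = e i + A := fun i => Int.toNat_of_nonneg (hA i)
  apply hT k hk0
  refine ⟨∑ i, C (d i) * X ^ (e i + A).toNat, ?_, ?_⟩
  · intro h0
    have hc := congrArg (fun f => coeff f (e 0 + A).toNat) h0
    simp only [finsetSum_coeff, coeff_C_mul, coeff_X_pow, coeff_zero] at hc
    rw [Finset.sum_eq_single 0] at hc
    · rw [if_pos rfl, mul_one] at hc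
      exact hd 0 hc
    · intro j _ hj
      rw [if_neg, mul_zero]
      intro hh
      apply hj
      apply heinj
      have h1 := hp j
      have h2 := hp 0
      rw [← hh, h2] at h1
      omega
    · intro hh
      exact absurd (Finset.mem_univ _) hh
  · rw [map_sum]
    have h1 : ∀ i, aeval (E k) (C (d i) * X ^ (e i + A).toNat) =
        algebraMap K L (d i) * E (w i) * (E (w 0))⁻¹ * E k ^ A := by
      intro i
      rw [map_mul, aeval_C, map_pow, aeval_X, ← zpow_natCast, hp, zpow_add₀ (hE.ne k), zpow_natCast,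
        ← hE.zsmul, ← hwe, hE.sub]
      ring
    rw [Finset.sum_congr rfl (fun i _ => h1 i), ← Finset.sum_mul, ← Finset.sum_mul, h, zero_mul,
      zero_mul]

theorem common_den (ρ ς : Fin 3 → ℚ) : ∃ N : ℕ, N ≠ 0 ∧ ∃ P Q : Fin 3 → ℤ,
    (∀ i, ρ i = P i * (N : ℚ)⁻¹) ∧ (∀ i, ς i = Q i * (N : ℚ)⁻¹) := by
  set N : ℕ := ∏ i, ((ρ i).den * (ς i).den) with hN
  have hN0 : N ≠ 0 := Finset.prod_ne_zero_iff.2 fun i _ =>
    mul_ne_zero (ρ i).den_ne_zero (ς i).den_ne_zero
  have hN0' : (N : ℚ) ≠ 0 := by exact_mod_cast hN0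
  have key : ∀ r : ℚ, r.den ∣ N → ∃ P : ℤ, r = P * (N : ℚ)⁻¹ := by
    rintro r ⟨k, hk⟩
    refine ⟨k * r.num, ?_⟩
    rw [← div_eq_mul_inv, eq_div_iff hN0', hk]
    push_cast
    have := Rat.den_mul_eq_num r
    linear_combination (k : ℚ) * this
  have h1 : ∀ i, ((ρ i).den * (ς i).den) ∣ N := fun i => Finset.dvd_prod_of_mem _ (Finset.mem_univ i)
  choose P hP using fun i => key (ρ i) ((Dvd.intro _ rfl).trans (h1 i))
  choose Q hQ using fun i => key (ς i) ((Dvd.intro_left _ rfl).trans (h1 i))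
  exact ⟨N, hN0, P, Q, hP, hQ⟩

theorem uniq [IsAlgClosed K] {E : K × ℚ → L} (hE : ExpSys E)
    (hT : ∀ v, v ≠ 0 → ¬ IsAlgebraic K (E v))
    {v : Fin 3 → K × ℚ} (hv : Function.Injective v) {c : Fin 3 → K} (hc : ∀ i, c i ≠ 0)
    (hcv : ∑ i, algebraMap K L (c i) * E (v i) = 0)
    {w : Fin 3 → K × ℚ} (hw : Function.Injective w) {d : Fin 3 → K} (hd : ∀ i, d i ≠ 0)
    (hdw : ∑ i, algebraMap K L (d i) * E (w i) = 0) :
    ∃ (σ : Equiv.Perm (Fin 3)) (s : K × ℚ) (μ : K), μ ≠ 0 ∧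
      ∀ i, w (σ i) = s + v i ∧ d (σ i) = μ * c i := by
  set a := v 1 - v 0 with ha
  set b := v 2 - v 0 with hb
  have hab := noncollinear hE hT hv hc hcv
  have hab' := noncollinear hE hT hw hd hdw
  have rel : algebraMap K L (c 0) + algebraMap K L (c 1) * E a + algebraMap K L (c 2) * E b = 0 := by
    rw [Fin.sum_univ_three] at hcv
    rw [ha, hb, hE.sub, hE.sub]
    have := hE.ne (v 0)
    field_simp
    linear_combination hcv
  have rel' : algebraMap K L (d 0) + algebraMap K L (d 1) * E (w 1 - w 0) +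
      algebraMap K L (d 2) * E (w 2 - w 0) = 0 := by
    rw [Fin.sum_univ_three] at hdw
    rw [hE.sub, hE.sub]
    have := hE.ne (w 0)
    field_simp
    linear_combination hdw
  have hpl := planes hE (not_mem_empty hE hT) (self_mem hE a) (third_mem hE a b (hc 2) rel) hab
    (self_mem hE (w 1 - w 0)) (third_mem hE _ _ (hd 2) rel') hab'
  obtain ⟨r1, s1, h1⟩ := hpl _ (self_mem hE (w 1 - w 0))
  obtain ⟨r2, s2, h2⟩ := hpl _ (third_mem hE _ _ (hd 2) rel')
  obtain ⟨N, hN, P, Q, hP, hQ⟩ := common_den ![0, r1, r2] ![0, s1, s2]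
  have hN' : (N : ℚ) ≠ 0 := by exact_mod_cast hN
  set a₀ := (N : ℚ)⁻¹ • a with ha₀
  set b₀ := (N : ℚ)⁻¹ • b with hb₀
  have hwi : ∀ i, w i - w 0 = P i • a₀ + Q i • b₀ := by
    intro i
    have e1 : P i • a₀ = (P i * (N : ℚ)⁻¹) • a := by
      rw [ha₀, ← Int.cast_smul_eq_zsmul ℚ, smul_smul]
    have e2 : Q i • b₀ = (Q i * (N : ℚ)⁻¹) • b := by
      rw [hb₀, ← Int.cast_smul_eq_zsmul ℚ, smul_smul]
    rw [e1, e2, ← hP, ← hQ]
    fin_cases i
    · simp
    · simpa using h1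
    · simpa using h2
  have ha1 : E a = E a₀ ^ N := by
    rw [← hE.nsmul, ha₀, ← Nat.cast_smul_eq_nsmul ℚ, smul_smul, mul_inv_cancel₀ hN', one_smul]
  have hb1 : E b = E b₀ ^ N := by
    rw [← hE.nsmul, hb₀, ← Nat.cast_smul_eq_nsmul ℚ, smul_smul, mul_inv_cancel₀ hN', one_smul]
  obtain ⟨γ, hγ⟩ := IsAlgClosed.exists_pow_nat_eq (-(c 1 / c 0)) (Nat.pos_of_ne_zero hN)
  obtain ⟨δ, hδ⟩ := IsAlgClosed.exists_pow_nat_eq (-(c 2 / c 0)) (Nat.pos_of_ne_zero hN)
  have hc0 := hc 0
  have hc1 := hc 1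
  have hc2 := hc 2
  have hγ0 : γ ≠ 0 := by
    rintro rfl
    rw [zero_pow hN] at hγ
    exact (neg_ne_zero.2 (div_ne_zero hc1 hc0)) hγ.symm
  have hδ0 : δ ≠ 0 := by
    rintro rfl
    rw [zero_pow hN] at hδ
    exact (neg_ne_zero.2 (div_ne_zero hc2 hc0)) hδ.symm
  have hc0' : algebraMap K L (c 0) ≠ 0 := by simpa using hc0
  have hγ0' : algebraMap K L γ ≠ 0 := by simpa using hγ0
  have hδ0' : algebraMap K L δ ≠ 0 := by simpa using hδ0
  have hxy : (algebraMap K L γ * E a₀) ^ N + (algebraMap K L δ * E b₀) ^ N = 1 := by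
    rw [mul_pow, mul_pow, ← ha1, ← hb1, ← map_pow, ← map_pow, hγ, hδ]
    simp only [map_neg, map_div₀]
    field_simp
    linear_combination -rel
  have ha0 : a₀ ≠ 0 := smul_ne_zero (inv_ne_zero hN') (sub_ne_zero.2 fun e => absurd (hv e) (by decide))
  have hx : Transcendental K (algebraMap K L γ * E a₀) := by
    intro halg
    apply hT a₀ ha0
    have h3 := (isAlgebraic_algebraMap (R := K) (A := L) γ⁻¹).mul halg
    rwa [← mul_assoc, ← map_mul, inv_mul_cancel₀ hγ0, map_one, one_mul] at h3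
  have hinj : ∀ i j, P i = P j → Q i = Q j → i = j := by
    intro i j e1 e2
    apply hw
    have h3 : w i - w 0 = w j - w 0 := by rw [hwi, hwi, e1, e2]
    exact sub_left_injective h3
  obtain ⟨σ, μ, p₀, q₀, hσ⟩ := fermat (D := fun i => d i * (γ ^ P i)⁻¹ * (δ ^ Q i)⁻¹) hN hx hxy
    (fun i => mul_ne_zero (mul_ne_zero (hd i) (inv_ne_zero (zpow_ne_zero _ hγ0)))
      (inv_ne_zero (zpow_ne_zero _ hδ0))) hinj (by
      have h3 : ∀ i, algebraMap K L (d i * (γ ^ P i)⁻¹ * (δ ^ Q i)⁻¹) *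
          ((algebraMap K L γ * E a₀) ^ P i * (algebraMap K L δ * E b₀) ^ Q i) =
          algebraMap K L (d i) * E (w i) * (E (w 0))⁻¹ := by
        intro i
        have h4 : E (w i) = E (w 0) * (E a₀ ^ P i * E b₀ ^ Q i) := by
          rw [← hE.zsmul, ← hE.zsmul, ← hE.add, ← hE.add, ← hwi]
          congr 1
          abel
        rw [h4, mul_zpow, mul_zpow]
        simp only [map_mul, map_inv₀, map_zpow₀]
        have := hE.ne (w 0)
        have g1 := zpow_ne_zero (P i) hγ0'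
        have g2 := zpow_ne_zero (Q i) hδ0'
        field_simp
      rw [Finset.sum_congr rfl (fun i _ => h3 i), ← Finset.sum_mul, hdw, zero_mul])
  have hvi : ∀ i, v i = v 0 + (tm i • a + tk i • b) := by
    intro i
    fin_cases i
    · simp [tm, tk]
    · simp [tm, tk, ha]
    · simp [tm, tk, hb]
  refine ⟨σ, w 0 + (p₀ • a₀ + q₀ • b₀) - v 0, μ * γ ^ p₀ * δ ^ q₀ / c 0, ?_, ?_⟩
  · have h5 := (hσ 0).2.2
    have hμ : μ ≠ 0 := by
      rintro rfl
      rw [zero_mul] at h5
      exact mul_ne_zero (mul_ne_zero (hd _) (inv_ne_zero (zpow_ne_zero _ hγ0)))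
        (inv_ne_zero (zpow_ne_zero _ hδ0)) h5
    exact div_ne_zero (mul_ne_zero (mul_ne_zero hμ (zpow_ne_zero _ hγ0)) (zpow_ne_zero _ hδ0)) hc0
  · intro i
    obtain ⟨e1, e2, e3⟩ := hσ i
    constructor
    · have h6 := hwi (σ i)
      rw [e1, e2, add_smul, add_smul, mul_smul, mul_smul] at h6
      have h7 : (N : ℤ) • (tm i • a₀) = tm i • a := by
        rw [smul_comm, ha₀, natCast_zsmul, ← Nat.cast_smul_eq_nsmul ℚ, smul_smul,
          mul_inv_cancel₀ hN', one_smul]
      have h8 : (N : ℤ) • (tk i • b₀) = tk i • b := by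
        rw [smul_comm, hb₀, natCast_zsmul, ← Nat.cast_smul_eq_nsmul ℚ, smul_smul,
          mul_inv_cancel₀ hN', one_smul]
      rw [h7, h8] at h6
      rw [hvi i, eq_add_of_sub_eq h6]
      abel
    · rw [e1, e2, zpow_add₀ hγ0, zpow_add₀ hδ0, zpow_mul, zpow_mul, zpow_natCast, zpow_natCast, hγ,
        hδ] at e3
      have g1 := zpow_ne_zero p₀ hγ0
      have g2 := zpow_ne_zero q₀ hδ0
      fin_cases i
      · simp [tm, tk, tc] at e3 ⊢
        field_simp at e3 ⊢
        linear_combination e3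
      · simp [tm, tk, tc] at e3 ⊢
        field_simp at e3 ⊢
        linear_combination e3
      · simp [tm, tk, tc] at e3 ⊢
        field_simp at e3 ⊢
        linear_combination e3

end Run7.h84.TT
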